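import Pool.Agent.L0h17.WT.Stm

set_option autoImplicit false
set_option linter.unusedSectionVars false
set_option linter.unusedVariables false

/-! # Sums over the strata of a resolution -/

namespace Pool.Agent.L0h17.WT

open Pool.Agent.W574.SM Pool.Agent.N103 Pool.Agent.N103.V

open Polynomial

/-- `∑_I χ_I ∏_{i ∈ I} 1 / (N_i s + ν_i)`, where `I` runs through the nonempty sets of components with
`e ∣ N_i` for all `i ∈ I`. -/
noncomputable def strata {T : Type} [Fintype T] (ν N : T → ℕ) (e : ℕ) (χ : Finset T → ℤ) :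
    RatFunc ℂ :=
  open Classical in
  ∑ I ∈ Finset.univ.filter (fun I : Finset T => I.Nonempty ∧ ∀ i ∈ I, e ∣ N i),
    (χ I : RatFunc ℂ) * ∏ i ∈ I, 1 / ((ν i : RatFunc ℂ) + (N i : RatFunc ℂ) * RatFunc.X)

theorem Val.prod {ι : Type} (S : Finset ι) {x : ι → RatFunc ℂ} {c : ι → ℂ}
    (h : ∀ i ∈ S, Val (x i) (c i)) : Val (∏ i ∈ S, x i) (∏ i ∈ S, c i) := by
  classical
  induction S using Finset.induction_on with
  | empty =>
    rw [Finset.prod_empty, Finset.prod_empty]
    have := Val_C 1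
    rwa [map_one] at this
  | insert i S hi ih =>
    rw [Finset.prod_insert hi, Finset.prod_insert hi]
    exact (h i (Finset.mem_insert_self i S)).mul
      (ih fun j hj => h j (Finset.mem_insert_of_mem hj))

variable {T : Type} [Fintype T]

theorem strata_val (ν N : T → ℕ) (hν : ∀ i, 1 ≤ ν i) (χ : Finset T → ℤ) :
    Val (strata ν N 1 χ) (open Classical in
      ∑ I ∈ Finset.univ.filter (fun I : Finset T => I.Nonempty),
        (χ I : ℂ) * ∏ i ∈ I, 1 / (ν i : ℂ)) := by
  classical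
  rw [strata]
  have h1 : Finset.univ.filter (fun I : Finset T => I.Nonempty ∧ ∀ i ∈ I, 1 ∣ N i) =
      Finset.univ.filter (fun I : Finset T => I.Nonempty) := by
    ext I
    simp
  have h2 : ∀ I : Finset T, Val ((χ I : RatFunc ℂ) * ∏ i ∈ I,
      1 / ((ν i : RatFunc ℂ) + (N i : RatFunc ℂ) * RatFunc.X))
      ((χ I : ℂ) * ∏ i ∈ I, 1 / (ν i : ℂ)) := by
    intro I
    have h3 := Val_C (χ I : ℂ)
    rw [map_intCast] at h3
    exact h3.mul (Val.prod I fun i _ => Val_fac (N i) (ν i) (hν i))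
  have h4 := Val.sum (Finset.univ.filter (fun I : Finset T => I.Nonempty)) (fun I _ => h2 I)
  convert h4 using 2

/-- A product of factors. -/
theorem prod_mem (ν N : T → ℕ) (I : Finset T) (s : ℂ)
    (h : ∀ i ∈ I, (ν i : ℂ) + N i * s ≠ 0) :
    ∏ i ∈ I, 1 / ((ν i : RatFunc ℂ) + (N i : RatFunc ℂ) * RatFunc.X) ∈ Reg s :=
  Subring.prod_mem _ fun i hi => fac_mem (N i) (ν i) s (h i hi)

theorem strata_mem (ν N : T → ℕ) (e : ℕ) (χ : Finset T → ℤ) (s : ℂ)
    (h : ∀ i, e ∣ N i → (ν i : ℂ) + N i * s ≠ 0) : strata ν N e χ ∈ Reg s := by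
  classical
  rw [strata]
  refine Subring.sum_mem _ fun I hI => (Reg s).mul_mem (intCast_mem _ _) (prod_mem ν N I s ?_)
  intro i hi
  exact h i ((Finset.mem_filter.1 hI).2.2 i hi)

/-- The properties of the zeta functions. -/
theorem good_strata {σ : Type} {F : MvPolynomial σ ℂ} {p : σ → ℂ} (hF : F ≠ 0)
    (h0 : MvPolynomial.eval p F = 0) (ν N : T → ℕ) (hν : ∀ i, 1 ≤ ν i)
    (χ : ℕ → Finset T → ℤ)
    (hval : (open Classical in ∑ I ∈ Finset.univ.filter (fun I : Finset T => I.Nonempty),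
      (χ 1 I : ℂ) * ∏ i ∈ I, 1 / (ν i : ℂ)) = 1)
    (hA : ∀ (H : MvPolynomial σ ℂ) (s : ℂ), MvPolynomial.eval p H ≠ 0 → Ev H F s → ∀ i,
      (ν i : ℂ) + N i * s = 0 → N i = 1 ∧ ν i = 1)
    (hB : ∀ H : MvPolynomial σ ℂ, MvPolynomial.eval p H ≠ 0 → Ev H F (-1) → ∀ i i',
      N i = 1 → ν i = 1 → N i' = 1 → ν i' = 1 → i = i') :
    Good F p (fun e => strata ν N e (χ e)) where
  ne := hF
  zero := h0
  re := by
    intro e _ s hs
    refine strata_mem ν N e (χ e) s fun i _ h => ?_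
    have h1 := congrArg Complex.re h
    rw [Complex.add_re, Complex.mul_re, Complex.natCast_re, Complex.natCast_re, Complex.natCast_im,
      zero_mul, sub_zero, Complex.zero_re] at h1
    have h2 : (1 : ℝ) ≤ ν i := by exact_mod_cast hν i
    have h3 : 0 ≤ (N i : ℝ) * s.re := mul_nonneg (Nat.cast_nonneg _) hs
    linarith
  one := by
    have h1 := strata_val ν N hν (χ 1)
    rw [hval] at h1
    obtain ⟨r, hr, h2⟩ := h1
    exact ⟨r, hr, by rw [h2, map_one]⟩
  high := by
    intro e he H s hH hE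
    refine strata_mem ν N e (χ e) s fun i hi h => ?_
    have h1 := (hA H s hH hE i h).1
    rw [h1] at hi
    have := Nat.le_of_dvd one_pos hi
    omega
  low := by
    classical
    intro H s hH hE
    rw [strata, Finset.mul_sum]
    refine Subring.sum_mem _ fun I hI => ?_
    rw [mul_left_comm]
    refine (Reg s).mul_mem (intCast_mem _ _) ?_
    by_cases hall : ∀ i ∈ I, (ν i : ℂ) + N i * s ≠ 0
    · exact (Reg s).mul_mem (X1_mem s) (prod_mem ν N I s hall)
    · push Not at hall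
      obtain ⟨i, hi, h1⟩ := hall
      obtain ⟨h2, h3⟩ := hA H s hH hE i h1
      have hs : s = -1 := by
        rw [h2, h3] at h1
        push_cast at h1
        linear_combination h1
      subst hs
      rw [← Finset.mul_prod_erase I _ hi, ← mul_assoc, h2, h3]
      have h4 : (RatFunc.X + 1 : RatFunc ℂ) *
          (1 / (((1 : ℕ) : RatFunc ℂ) + ((1 : ℕ) : RatFunc ℂ) * RatFunc.X)) = 1 := by
        rw [Nat.cast_one, one_mul, add_comm (1 : RatFunc ℂ) RatFunc.X, mul_one_div_cancel X1_ne]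
      rw [h4, one_mul]
      refine prod_mem ν N _ _ fun i' hi' h5 => ?_
      obtain ⟨h6, h7⟩ := hA H _ hH hE i' h5
      exact (Finset.ne_of_mem_erase hi') (hB H hH hE i' i h6 h7 h2 h3)

end Pool.Agent.L0h17.WT
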