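import Pool.Agent.L0h17.WT.D

set_option autoImplicit false
set_option linter.unusedSectionVars false
set_option linter.unusedVariables false

/-! # Normal crossings and weighted centres: the zeta functions are good -/

namespace Pool.Agent.L0h17.WT

open MvPolynomial Pool.Agent.L0h21.SN Pool.Agent.L0h21.RW Pool.Agent.N103.V

variable {V J : Type} [Fintype V] [DecidableEq V] [Fintype J] [DecidableEq J]

/-- A prime factor which vanishes at the point. -/
theorem exists_prime_at (f : MvPolynomial V ℂ) (Q : V → ℂ) (h : eval Q f = 0) (v : V)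
    (hv : eval Q (pderiv v f) ≠ 0) :
    ∃ q r : MvPolynomial V ℂ, Prime q ∧ f = q * r ∧ eval Q q = 0 ∧ eval Q r ≠ 0 := by
  have hf0 : f ≠ 0 := by
    rintro rfl
    simp at hv
  obtain ⟨s, hs, hs2⟩ := UniqueFactorizationMonoid.exists_prime_factors f hf0
  have h1 : eval Q s.prod = 0 := by
    obtain ⟨u, hu⟩ := hs2.symm
    rw [← hu, map_mul, h, zero_mul]
  have h2 : ∃ q ∈ s, eval Q q = 0 := by
    rw [map_multiset_prod, Multiset.prod_eq_zero_iff, Multiset.mem_map] at h1
    exact h1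
  obtain ⟨q, hq, hq0⟩ := h2
  obtain ⟨r, hr⟩ : q ∣ f := (Multiset.dvd_prod hq).trans hs2.dvd
  refine ⟨q, r, hs q hq, hr, hq0, fun h3 => hv ?_⟩
  rw [hr, Derivation.leibniz, map_add, smul_eq_mul, smul_eq_mul, map_mul, map_mul, hq0, h3,
    zero_mul, zero_mul, add_zero]

theorem snc_grad {f : J → MvPolynomial V ℂ} {Q : V → ℂ} (hQ : SNCAt' f Q) (j : J)
    (hj : eval Q (f j) = 0) : ∃ v, eval Q (pderiv v (f j)) ≠ 0 := by
  have h1 := hQ.ne_zero ⟨j, by rw [aeval_ev]; exact hj⟩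
  by_contra hcon
  push Not at hcon
  apply h1
  funext v
  rw [Pi.zero_apply, aeval_ev]
  exact hcon v

/-- Different components through the point have no common prime factors through the point. -/
theorem snc_not_dvd {f : J → MvPolynomial V ℂ} {Q : V → ℂ} (hQ : SNCAt' f Q) (i j : J)
    (hij : i ≠ j) (hj : eval Q (f j) = 0) (q r : MvPolynomial V ℂ) (hqr : f j = q * r)
    (hq : eval Q q = 0) (hr : eval Q r ≠ 0) : ¬ q ∣ f i := by
  rintro ⟨s, hs⟩
  have hi : eval Q (f i) = 0 := by rw [hs, map_mul, hq, zero_mul]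
  have hgi : ∀ v, eval Q (pderiv v (f i)) = eval Q s * eval Q (pderiv v q) := by
    intro v
    rw [hs, Derivation.leibniz, map_add, smul_eq_mul, smul_eq_mul, map_mul, map_mul, hq, zero_mul,
      zero_add]
  have hgj : ∀ v, eval Q (pderiv v (f j)) = eval Q r * eval Q (pderiv v q) := by
    intro v
    rw [hqr, Derivation.leibniz, map_add, smul_eq_mul, smul_eq_mul, map_mul, map_mul, hq,
      zero_mul, zero_add]
  have h1 := linearIndependent_iff'.1 hQ
    {⟨i, by rw [aeval_ev]; exact hi⟩, ⟨j, by rw [aeval_ev]; exact hj⟩}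
    (fun t => if t.1 = i then eval Q r else - eval Q s) (by
      rw [Finset.sum_pair (fun h => hij (congrArg Subtype.val h))]
      simp only [if_true, if_neg hij.symm]
      funext v
      simp only [Pi.add_apply, Pi.smul_apply, smul_eq_mul, Pi.zero_apply, aeval_ev, hgi, hgj]
      ring) ⟨i, by rw [aeval_ev]; exact hi⟩ (Finset.mem_insert_self _ _)
  simp only [if_true] at h1
  exact hr h1

theorem prime_not_dvd_C {q : MvPolynomial V ℂ} (hq : Prime q) {c : ℂ} (hc : c ≠ 0) :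
    ¬ q ∣ C c := by
  intro h
  refine hq.not_isUnit (isUnit_of_dvd_unit h ?_)
  exact (isUnit_iff_ne_zero.2 hc).map C

/-- A prime factor of a component through a point with normal crossings. -/
theorem nc_fac (f : J → MvPolynomial V ℂ) (Q : V → ℂ) (hQ : SNCAt' f Q) (m : J → ℕ)
    (hm : ∀ j, 0 < m j) (c : ℂ) (hc : c ≠ 0) (j : J) (hj : eval Q (f j) = 0) :
    ∃ q r : MvPolynomial V ℂ, Prime q ∧ eval Q q = 0 ∧
      C c * ∏ j, f j ^ m j = q ^ m j * r ∧ ¬ q ∣ r ∧
      ∀ i, i ≠ j → eval Q (f i) = 0 → eval Q r = 0 := by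
  obtain ⟨v, hv⟩ := snc_grad hQ j hj
  obtain ⟨q, r, hq, hqr, hq0, hr0⟩ := exists_prime_at (f j) Q hj v hv
  refine ⟨q, C c * r ^ m j * ∏ i ∈ Finset.univ.erase j, f i ^ m i, hq, hq0, ?_, fun h => ?_,
    fun i hi hi0 => ?_⟩
  · rw [← Finset.mul_prod_erase Finset.univ (fun j => f j ^ m j) (Finset.mem_univ j), hqr,
      mul_pow]
    ring
  · rcases hq.dvd_or_dvd h with h | h
    · rcases hq.dvd_or_dvd h with h | h
      · exact prime_not_dvd_C hq hc h
      · obtain ⟨s, hs⟩ := hq.dvd_of_dvd_pow h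
        exact hr0 (by rw [hs, map_mul, hq0, zero_mul])
    · obtain ⟨i, hi, h⟩ := (Prime.dvd_finsetProd_iff hq _).1 h
      exact snc_not_dvd hQ i j (Finset.ne_of_mem_erase hi) hj q r hqr hq0 hr0
        (hq.dvd_of_dvd_pow h)
  · rw [map_mul, map_prod, Finset.prod_eq_zero (Finset.mem_erase.2 ⟨hi, Finset.mem_univ i⟩),
      mul_zero]
    rw [map_pow, hi0, zero_pow (hm i).ne']

/-- The conclusion for the components. -/
theorem comp_cond (hP : S_PRI) {F H : MvPolynomial V ℂ} {p : V → ℂ} {m : ℕ}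
    (hF : ∃ q r : MvPolynomial V ℂ, Prime q ∧ eval p q = 0 ∧ F = q ^ m * r ∧ ¬ q ∣ r) (hm : 0 < m)
    (hH : eval p H ≠ 0) (s : ℂ) (hE : Ev H F s) (hs : ((1 : ℕ) : ℂ) + m * s = 0) : m = 1 := by
  by_contra h1
  obtain ⟨q, r, hq, hq0, rfl, hr⟩ := hF
  have hmc : (m : ℂ) ≠ 0 := Nat.cast_ne_zero.2 hm.ne'
  have h2 : s = -1 / (m : ℂ) := by
    rw [eq_div_iff hmc]
    push_cast at hs
    linear_combination hs
  subst h2
  exact hP q r H m p (by omega) hq hr hq0 hH hE

theorem ne_of_fac {F : MvPolynomial V ℂ} {f : J → MvPolynomial V ℂ} {m : J → ℕ} {c : ℂ}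
    (hc : c ≠ 0) (hf : ∀ j, f j ≠ 0) (hF : F = C c * ∏ j, f j ^ m j) : F ≠ 0 := by
  rw [hF]
  exact mul_ne_zero (by simpa using hc) (Finset.prod_ne_zero_iff.2 fun j _ => pow_ne_zero _ (hf j))

/-- Points with normal crossings. -/
theorem good_normal (hP : S_PRI) (hC : S_CRO) (f : J → MvPolynomial V ℂ) (p : V → ℂ)
    (hQ : SNCAt' f p) (hf0 : ∀ j, f j ≠ 0) (j0 : J) (hj0 : eval p (f j0) = 0) (m : J → ℕ)
    (hm : ∀ j, 0 < m j) (c : ℂ) (hc : c ≠ 0) :
    Good (C c * ∏ j, f j ^ m j) p (fun e => open Classical in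
      strata (T := {j : J // eval p (f j) = 0}) (fun _ => 1) (fun j => m j.1) e
        (fun I => if I = Finset.univ then 1 else 0)) := by
  classical
  have hz : eval p (C c * ∏ j, f j ^ m j) = 0 := by
    rw [map_mul, map_prod, Finset.prod_eq_zero (Finset.mem_univ j0), mul_zero]
    rw [map_pow, hj0, zero_pow (hm j0).ne']
  refine good_strata (T := {j : J // eval p (f j) = 0}) (ne_of_fac hc hf0 rfl) hz (fun _ => 1)
    (fun j => m j.1) (fun _ => le_rfl) (fun _ I => if I = Finset.univ then 1 else 0) ?_ ?_ ?_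
  · rw [Finset.sum_eq_single Finset.univ]
    · simp
    · intro I _ hI
      rw [if_neg hI]
      simp
    · intro h
      exact absurd (Finset.mem_filter.2 ⟨Finset.mem_univ _, ⟨⟨j0, hj0⟩, Finset.mem_univ _⟩⟩) h
  · intro H s hH hE i hs
    obtain ⟨q, r, hq, hq0, h1, h2, -⟩ := nc_fac f p hQ m hm c hc i.1 i.2
    exact ⟨comp_cond hP ⟨q, r, hq, hq0, h1, h2⟩ (hm _) hH s hE hs, rfl⟩
  · intro H hH hE i i' _ _ _ _
    by_contra hne
    obtain ⟨q, r, hq, hq0, h1, h2, h3⟩ := nc_fac f p hQ m hm c hc i.1 i.2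
    rw [h1] at hE
    exact hC q r H (m i.1) p (hm _) hq h2 hq0
      (h3 i'.1 (fun h => hne (Subtype.ext h.symm)) i'.2) hH hE

/-- Some component passes through a weighted centre. -/
theorem centre_zero {f : J → MvPolynomial V ℂ} {w : V → ℕ} {e : J → ℕ}
    {g : J → MvPolynomial V ℂ} {h : MvPolynomial V ℂ} (H : CentreAt f 0 w e g h) :
    ∃ j, eval 0 (f j) = 0 := by
  by_contra hcon
  push Not at hcon
  refine H.bad 0 (by rw [aeval_ev]; exact H.ne) (fun v _ => rfl) ?_
  have h1 : (fun v => (0 : V → ℂ) v + (0 : V → ℂ) v) = 0 := by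
    funext v
    simp
  rw [h1]
  unfold SNCAt'
  have : IsEmpty {j // aeval (0 : V → ℂ) (f j) = 0} := ⟨fun j => hcon j.1 (by
    rw [← aeval_ev]; exact j.2)⟩
  exact linearIndependent_empty_type

/-- The numbers `ν` of the components at a weighted centre: the sum of the weights for the
exceptional divisor (`none`), and `1` for the strict transforms. -/
def cnu (w : V → ℕ) (f : J → MvPolynomial V ℂ) : Option {j : J // eval 0 (f j) = 0} → ℕ :=
  fun i => i.elim (∑ v, w v) fun _ => 1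

/-- The multiplicities `N` of the components at a weighted centre. -/
def cmu (m e : J → ℕ) (f : J → MvPolynomial V ℂ) : Option {j : J // eval 0 (f j) = 0} → ℕ :=
  fun i => i.elim (∑ j, m j * e j) fun j => m j.1

/-- Weighted centres. -/
theorem good_centre (hP : S_PRI) (hC : S_CRO) (hE : S_EVP) (hCen : S_CEN) (hFac : S_FAC)
    (f : J → MvPolynomial V ℂ) (w : V → ℕ) (e : J → ℕ) (g : J → MvPolynomial V ℂ)
    (h : MvPolynomial V ℂ) (Hc : CentreAt f 0 w e g h) (m : J → ℕ) (hm : ∀ j, 0 < m j) (c : ℂ)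
    (hc : c ≠ 0) (χ : ℕ → Finset (Option {j : J // eval 0 (f j) = 0}) → ℤ)
    (hval : (open Classical in ∑ I ∈ Finset.univ.filter
      (fun I : Finset (Option {j : J // eval 0 (f j) = 0}) => I.Nonempty),
      (χ 1 I : ℂ) * ∏ i ∈ I, 1 / (cnu w f i : ℂ)) = 1) :
    Good (C c * ∏ j, f j ^ m j) 0 (fun k => open Classical in
      strata (cnu w f) (cmu m e f) k (χ k)) := by
  classical
  obtain ⟨j0, hj0⟩ := centre_zero Hc
  have hz : eval 0 (C c * ∏ j, f j ^ m j) = 0 := by
    rw [map_mul, map_prod, Finset.prod_eq_zero (Finset.mem_univ j0), mul_zero]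
    rw [map_pow, hj0, zero_pow (hm j0).ne']
  have hw2 : 2 ≤ ∑ v, w v := by
    obtain ⟨a, b, hab⟩ := Fintype.one_lt_card_iff.1 Hc.card
    have h5 : w a.1 + w b.1 ≤ ∑ v, w v := by
      rw [← Finset.sum_pair (fun h => hab (Subtype.ext h))]
      exact Finset.sum_le_sum_of_subset (Finset.subset_univ _)
    have h6 := a.2
    have h7 := b.2
    omega
  refine good_strata (ne_of_fac hc Hc.f_ne rfl) hz (cnu w f) (cmu m e f) ?_ χ hval ?_ ?_
  · rintro (_ | j)
    · show 1 ≤ ∑ v, w v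
      omega
    · exact le_rfl
  · intro H s hH hEv i hs
    rcases i with _ | j
    · exfalso
      obtain ⟨hd, hPer⟩ := hCen f w e g h Hc m hm c hc H hH
      have hs' : ((∑ v, w v : ℕ) : ℂ) + (∑ j, m j * e j : ℕ) * s = 0 := hs
      have hd0 : ((∑ j, m j * e j : ℕ) : ℂ) ≠ 0 := by exact_mod_cast hd.ne'
      have h1 : s = -((∑ v, w v : ℕ) : ℂ) / (∑ j, m j * e j : ℕ) := by
        rw [eq_div_iff hd0]
        linear_combination hs'
      rw [← h1] at hPer
      refine hE _ H s (fun n hn => ?_) hPer hEv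
      rw [hn] at hs'
      have h2 : (∑ v, w v) + (∑ j, m j * e j) * n = 0 := by exact_mod_cast hs'
      omega
    · obtain ⟨q, r, hq, hq0, h1, h2, -⟩ := hFac f w e g h Hc m hm c hc j.1 j.2
      exact ⟨comp_cond hP ⟨q, r, hq, hq0, h1, h2⟩ (hm _) hH s hEv hs, rfl⟩
  · intro H hH hEv i i' _ hi _ hi'
    have key : ∀ i : Option {j : J // eval 0 (f j) = 0}, cnu w f i = 1 → ∃ j, i = some j := by
      rintro (_ | j) h1
      · have : (∑ v, w v) = 1 := h1
        omega
      · exact ⟨j, rfl⟩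
    obtain ⟨j, rfl⟩ := key i hi
    obtain ⟨j', rfl⟩ := key i' hi'
    by_contra hne
    obtain ⟨q, r, hq, hq0, h1, h2, h3⟩ := hFac f w e g h Hc m hm c hc j.1 j.2
    rw [h1] at hEv
    exact hC q r H (m j.1) 0 (hm _) hq h2 hq0
      (h3 j'.1 (fun h => hne (by rw [Subtype.ext h])) j'.2) hH hEv

end Pool.Agent.L0h17.WT
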