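import Pool.Agent.L0h17.WT.E
import Pool.Agent.N103.V.Final

set_option autoImplicit false
set_option linter.unusedSectionVars false
set_option linter.unusedVariables false
set_option linter.unusedSimpArgs false

/-! # Germs with good zeta functions (as in `Pool/Agent/N103/V/Final.lean`) -/

namespace Pool.Agent.L0h17.WT

open Pool.Agent.W574.SM Pool.Agent.N103 Pool.Agent.N103.V Pool.Agent.H628R4.TP
open Pool.Agent.Y229.PS (IsFormalBFunction coordB formal_of_unit local_of_formal formal_of_local)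
open Pool.Agent.Y229.GL (IsCoord)
open Pool.Agent.Y229.RE (trans trans_local)

open Polynomial

variable {N : ℕ}

theorem reg_of_good {f : MvPowerSeries (Fin N) ℂ} {σ : Type} {F : MvPolynomial σ ℂ}
    {Z : ℕ → RatFunc ℂ} (hG : Good F 0 Z) (hf : BecomesAt f F) {b : ℂ[X]}
    (hb : IsFormalBFunction f b) {e : ℕ} (he : 1 ≤ e) {s : ℂ} (hs : b.eval s ≠ 0) :
    Z e ∈ Reg s := by
  obtain ⟨ε, φ, u, hφ, hφ0, hu, h3⟩ := hf
  obtain ⟨u, rfl⟩ := hu
  have h4 : IsLocalBFunction (MvPolynomial.rename ε F) b := by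
    refine local_of_formal (formal_of_unit (Units.inv_mul u) ?_)
    rw [← h3]
    exact coordB hφ hφ0 hb
  have hinj := MvPolynomial.rename_injective ε ε.injective (R := ℂ)
  have hne : MvPolynomial.rename ε F ≠ 0 := by
    intro h5
    exact hG.ne (hinj (by rw [h5, map_zero]))
  obtain ⟨H, hH, hHb⟩ := heq_of_local _ hne b h4
  have hH2 : MvPolynomial.eval (0 : σ → ℂ) (MvPolynomial.rename ε.symm H) ≠ 0 := by
    rw [MvPolynomial.eval_rename]
    have : ((0 : σ → ℂ) ∘ ε.symm) = 0 := rfl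
    rw [this, MvPolynomial.eval_zero]
    exact hH
  refine hG.all he hH2 (ev_rename ε (Ev_of_heq hne hHb hs)) ?_
  rintro rfl
  refine hs (root_minus_one (p := 0) hne ?_ ?_ hHb)
  · rw [MvPolynomial.eval_rename]
    exact hG.zero
  · rw [MvPolynomial.eval_zero]
    exact hH

/-- **The local theorem.** -/
theorem good_local (f : MvPowerSeries (Fin N) ℂ) {σ : Type} (F : MvPolynomial σ ℂ)
    (hf : BecomesAt f F) (Z : ℕ → RatFunc ℂ) (hG : Good F 0 Z) (b : ℂ[X])
    (hb : IsFormalBFunction f b) (e : ℕ) (he : 1 ≤ e) (s : ℂ)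
    (hs : (Z e).denom.eval s = 0) : b.eval s = 0 := by
  by_contra hne
  exact Reg_denom s _ (reg_of_good hG hf hb he hne) hs

/-- **The global theorem.** -/
theorem good_global (f : MvPolynomial (Fin N) ℂ) (b : ℂ[X]) (hb : IsBFunction f b) (e : ℕ)
    (he : 1 ≤ e) {ι : Type} [Fintype ι] (χ : ι → ℤ) (p : ι → Fin N → ℂ) (σ : ι → Type)
    (F : ∀ i, MvPolynomial (σ i) ℂ)
    (hF : ∀ i, BecomesAt (trans (p i) f : MvPowerSeries (Fin N) ℂ) (F i))
    (Z : ι → ℕ → RatFunc ℂ) (hG : ∀ i, Good (F i) 0 (Z i)) (χ0 : ℤ) (s : ℂ)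
    (hs : ((χ0 : RatFunc ℂ) + ∑ i, (χ i : RatFunc ℂ) * Z i e).denom.eval s = 0) :
    b.eval s = 0 := by
  by_contra hne
  refine Reg_denom s _ ?_ hs
  refine (Reg s).add_mem (intCast_mem _ _) (Subring.sum_mem _ fun i _ => ?_)
  exact (Reg s).mul_mem (intCast_mem _ _)
    (reg_of_good (hG i) (hF i) (formal_of_local (trans_local (p i) hb)) he hne)

end Pool.Agent.L0h17.WT
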