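import Pool.Agent.L0h17.WT.D
import Pool.Agent.L0h21.SN.AutB
import Pool.Agent.L0h6.WT.PRI
import Pool.Agent.L0h6.WT.CRO
import Pool.Agent.L0h36.WT.EVP
import Pool.Agent.L0h92.WT.CEN

set_option autoImplicit false
set_option linter.unusedSectionVars false
set_option linter.unusedVariables false

/-! # Divisors given by weights in polynomial coordinates -/

namespace Pool.Agent.L0h17.WT

open MvPolynomial Pool.Agent.L0h21.SN Pool.Agent.L0h21.RW Pool.Agent.N103.V Pool.Agent.N103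

variable {V : Type} [Fintype V]

/-- The conjugate of a partial derivative. -/
noncomputable def cder (Φ : MvPolynomial V ℂ ≃ₐ[ℂ] MvPolynomial V ℂ) (i : V) :
    Derivation ℂ (MvPolynomial V ℂ) (MvPolynomial V ℂ) :=
  Derivation.mk' (Φ.toLinearMap ∘ₗ (pderiv i : Derivation ℂ (MvPolynomial V ℂ)
    (MvPolynomial V ℂ)).toLinearMap ∘ₗ Φ.symm.toLinearMap) (by
      intro a b
      simp only [LinearMap.comp_apply, AlgEquiv.toLinearMap_apply, Derivation.coeFn_coe, map_mul, Derivation.leibniz, map_add, smul_eq_mul,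
        AlgEquiv.apply_symm_apply])

theorem cder_apply (Φ : MvPolynomial V ℂ ≃ₐ[ℂ] MvPolynomial V ℂ) (i : V) (q : MvPolynomial V ℂ) :
    cder Φ i q = Φ (pderiv i (Φ.symm q)) := rfl

theorem ev_aut (Φ : MvPolynomial V ℂ ≃ₐ[ℂ] MvPolynomial V ℂ) {H F : MvPolynomial V ℂ} {s : ℂ}
    (hE : Ev H F s) : Ev (Φ H) (Φ F) s := by
  intro L _ _ φ D Gi hD hG U h1 h2 h3 h4
  have hU := mulU h1
  let D' : V → Derivation ℂ L L := fun i => ∑ k, φ (cder Φ i (X k)) • D k
  have hD' : ∀ i x, D' i x = ∑ k, φ (cder Φ i (X k)) * D k x := by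
    intro i x
    simp only [D']
    rw [← Derivation.coeFnAddMonoidHom_apply, map_sum, Finset.sum_apply]
    rfl
  have hDφ : ∀ i p, D' i (φ (Φ p)) = φ (Φ (pderiv i p)) := by
    intro i p
    rw [hD']
    have h5 := der_eq (cder Φ i) (Φ p)
    rw [cder_apply, AlgEquiv.symm_apply_apply] at h5
    rw [h5, map_sum]
    refine Finset.sum_congr rfl fun k _ => ?_
    rw [hD, map_mul]
  refine hE L (φ.comp Φ.toAlgHom) D' Gi hDφ hG U ?_ ?_ h3 ?_
  · intro i x hx
    exact hU (Φ (X i)) x hx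
  · intro i x hx
    have h5 : nab (φ.comp Φ.toAlgHom) D' F Gi s i x =
        ∑ k, φ (cder Φ i (X k)) * nab φ D (Φ F) Gi s k x := by
      rw [nab_apply]
      have h6 : (φ.comp Φ.toAlgHom) F = φ (Φ F) := rfl
      rw [h6, hD', hD', Finset.sum_mul, Finset.mul_sum, Finset.sum_mul, ← Finset.sum_add_distrib]
      refine Finset.sum_congr rfl fun k _ => ?_
      rw [nab_apply]
      ring
    rw [h5]
    exact Submodule.sum_mem _ fun k _ => hU _ _ (h2 k x hx)
  · intro i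
    have h5 : (φ.comp Φ.toAlgHom) (pderiv i F) = ∑ k, φ (cder Φ i (X k)) * φ (pderiv k (Φ F)) := by
      have h6 : (φ.comp Φ.toAlgHom) (pderiv i F) = φ (Φ (pderiv i F)) := rfl
      rw [h6, ← hDφ, hD']
      refine Finset.sum_congr rfl fun k _ => ?_
      rw [hD]
    rw [h5]
    exact Submodule.sum_mem _ fun k _ => hU _ _ (h4 k)

theorem eval_aut (Φ : MvPolynomial V ℂ ≃ₐ[ℂ] MvPolynomial V ℂ)
    (hΦ : ∀ v, eval 0 (Φ (X v)) = 0) (q : MvPolynomial V ℂ) : eval 0 (Φ q) = eval 0 q := by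
  have h1 : ((aeval (0 : V → ℂ) : MvPolynomial V ℂ →ₐ[ℂ] ℂ).comp Φ.toAlgHom) =
      (aeval (0 : V → ℂ) : MvPolynomial V ℂ →ₐ[ℂ] ℂ) := by
    refine MvPolynomial.algHom_ext fun v => ?_
    show aeval (0 : V → ℂ) (Φ (X v)) = aeval (0 : V → ℂ) (X v)
    rw [aeval_eq_eval]
    show eval 0 (Φ (X v)) = eval 0 (X v)
    rw [hΦ v, eval_X]
    rfl
  have h2 := DFunLike.congr_fun h1 q
  have h3 : aeval (0 : V → ℂ) (Φ q) = aeval (0 : V → ℂ) q := h2
  rw [aeval_eq_eval] at h3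
  exact h3

/-- The exponent of a divisor which is given by weights, in the coordinates themselves. -/
theorem wdiv_contra {J : Type} [DecidableEq V] [Fintype J] [DecidableEq J]
    (F : MvPolynomial V ℂ) (w : V → ℕ) (c : ℂ) (g : J → MvPolynomial V ℂ) (e m : J → ℕ)
    (h : MvPolynomial V ℂ) (hcard : 2 ≤ Fintype.card (Pos w))
    (hg : ∀ j, IsWeightedHomogeneous w (g j) (e j)) (hm : ∀ j, 0 < m j) (hc : c ≠ 0)
    (hF1 : ∀ a < ∑ j, m j * e j, weightedHomogeneousComponent w a F = 0)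
    (hF2 : weightedHomogeneousComponent w (∑ j, m j * e j) F = C c * ∏ j, g j ^ m j)
    (hh0 : h ≠ 0) (hh : IsWeightedHomogeneous w h 0)
    (hsnc : ∀ P : V → ℂ, aeval P h ≠ 0 → (SNCAt' g P ↔ ∃ v, 0 < w v ∧ P v ≠ 0))
    (H : MvPolynomial V ℂ) (hH : eval 0 H ≠ 0) (s : ℂ) (hE : Ev H F s)
    (hs : ((∑ v, w v : ℕ) : ℂ) + (∑ j, m j * e j : ℕ) * s = 0) : False := by
  obtain ⟨β, hβd⟩ : ∃ β, β = weightedHomogeneousComponent w 0 H := ⟨_, rfl⟩
  have hβ0 : β ≠ 0 := by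
    intro h0
    apply hH
    have h1 : coeff 0 β = coeff 0 H := by
      rw [hβd, coeff_weightedHomogeneousComponent, if_pos (by rw [map_zero])]
    rw [h0, coeff_zero] at h1
    rw [eval_zero, constantCoeff_eq, ← h1]
  have hβ : IsWeightedHomogeneous w β 0 := by
    rw [hβd]
    exact weightedHomogeneousComponent_isWeightedHomogeneous 0 H
  obtain ⟨hd, hHP⟩ := Pool.Agent.L0h92.WT.hbB w g e m c h hcard hg hm hc hh0 hh hsnc β hβ0 hβ
  have hd0 : ((∑ j, m j * e j : ℕ) : ℂ) ≠ 0 := by exact_mod_cast hd.ne'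
  have hwpos : 0 < ∑ v, w v := by
    obtain ⟨a, b, hab⟩ := Fintype.one_lt_card_iff.1 hcard
    exact lt_of_lt_of_le a.2 (Finset.single_le_sum (fun _ _ => Nat.zero_le _) (Finset.mem_univ a.1))
  have hPer : PerH F (-((∑ v, w v : ℕ) : ℂ) / (∑ j, m j * e j : ℕ)) H := by
    refine Pool.Agent.L0h92.WT.tB w (∑ j, m j * e j) _ _ _ hd hF1 hF2 (fun he v => ?_) H (by
      rw [← hβd]; exact hHP)
    have h3 : ((∑ v, w v : ℕ) : ℂ) = ((∑ j, m j * e j : ℕ) : ℂ) := by
      rw [neg_div, neg_inj, div_eq_one_iff_eq hd0] at he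
      exact he
    have h4 : ∑ v, w v = ∑ j, m j * e j := by exact_mod_cast h3
    rw [← h4]
    obtain ⟨a, b, hab⟩ := Fintype.one_lt_card_iff.1 hcard
    obtain ⟨u, hu, huv⟩ : ∃ u : V, 0 < w u ∧ u ≠ v := by
      by_cases h5 : a.1 = v
      · exact ⟨b.1, b.2, fun h6 => hab (Subtype.ext (h5.trans h6.symm))⟩
      · exact ⟨a.1, a.2, h5⟩
    have h5 : w v + w u ≤ ∑ v, w v := by
      rw [← Finset.sum_pair huv.symm]
      exact Finset.sum_le_sum_of_subset (Finset.subset_univ _)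
    omega
  have h1 : s = -((∑ v, w v : ℕ) : ℂ) / (∑ j, m j * e j : ℕ) := by
    rw [eq_div_iff hd0]
    linear_combination hs
  rw [← h1] at hPer
  refine Pool.Agent.L0h36.WT.t_EVP F H s (fun n hn => ?_) hPer hE
  rw [hn] at hs
  have h2 : (∑ v, w v) + (∑ j, m j * e j) * n = 0 := by exact_mod_cast hs
  omega

/-- The zeta functions of a polynomial with a family of divisors `E` all of whose exponents are
excluded, and a family `S` of prime components. -/
theorem good_divisors {F : MvPolynomial V ℂ} (hF : F ≠ 0) (h0 : eval 0 F = 0)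
    {E S : Type} [Fintype E] [Fintype S] (ν N : E → ℕ) (hν : ∀ i, 2 ≤ ν i)
    (hA : ∀ i (H : MvPolynomial V ℂ) (s : ℂ), eval 0 H ≠ 0 → Ev H F s →
      (ν i : ℂ) + N i * s = 0 → False)
    (q : S → MvPolynomial V ℂ) (m : S → ℕ) (hm : ∀ j, 0 < m j) (hq : ∀ j, Prime (q j))
    (hq0 : ∀ j, eval 0 (q j) = 0) (hr : ∀ j, ∃ r, F = q j ^ m j * r ∧ ¬ q j ∣ r)
    (hne : ∀ i j, i ≠ j → ¬ q i ∣ q j)
    (χ : ℕ → Finset (E ⊕ S) → ℤ)
    (hval : (open Classical in ∑ I ∈ Finset.univ.filter (fun I : Finset (E ⊕ S) => I.Nonempty),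
      (χ 1 I : ℂ) * ∏ i ∈ I, 1 / ((Sum.elim ν (fun _ => 1) i : ℕ) : ℂ)) = 1) :
    Good F 0 (fun k => strata (Sum.elim ν (fun _ => 1)) (Sum.elim N m) k (χ k)) := by
  classical
  refine good_strata hF h0 (Sum.elim ν (fun _ => 1)) (Sum.elim N m) ?_ χ hval ?_ ?_
  · rintro (i | j)
    · exact le_trans (by norm_num) (hν i)
    · exact le_rfl
  · intro H s hH hE i hs
    rcases i with i | j
    · exact (hA i H s hH hE hs).elim
    · refine ⟨?_, rfl⟩
      by_contra h1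
      obtain ⟨r, hFr, hr'⟩ := hr j
      have hmc : (m j : ℂ) ≠ 0 := Nat.cast_ne_zero.2 (hm j).ne'
      have hs' : ((1 : ℕ) : ℂ) + m j * s = 0 := hs
      have h2 : s = -1 / (m j : ℂ) := by
        rw [eq_div_iff hmc]
        push_cast at hs'
        linear_combination hs'
      rw [h2, hFr] at hE
      have h3 : (Sum.elim N m (Sum.inr j) : ℕ) = m j := rfl
      rw [h3] at h1
      have h4 := hm j
      exact Pool.Agent.L0h6.WT.t_PRI (q j) r H (m j) 0 (by omega) (hq j) hr' (hq0 j) hH hE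
  · intro H hH hE i i' _ hi _ hi'
    have key : ∀ i : E ⊕ S, Sum.elim ν (fun _ => 1) i = 1 → ∃ j, i = Sum.inr j := by
      rintro (i | j) h1
      · have h2 : ν i = 1 := h1
        have := hν i
        omega
      · exact ⟨j, rfl⟩
    obtain ⟨j, rfl⟩ := key i hi
    obtain ⟨j', rfl⟩ := key i' hi'
    by_contra hjj
    obtain ⟨r, hFr, hr'⟩ := hr j
    have h5 : eval 0 r = 0 := by
      obtain ⟨r', hFr', -⟩ := hr j'
      have h6 : q j' ∣ q j ^ m j * r := by
        rw [← hFr, hFr']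
        exact (dvd_pow_self _ (hm j').ne').mul_right _
      rcases (hq j').dvd_or_dvd h6 with h7 | h7
      · exact absurd ((hq j').dvd_of_dvd_pow h7) (hne j' j fun h => hjj (by rw [h]))
      · obtain ⟨t, ht⟩ := h7
        rw [ht, map_mul, hq0, zero_mul]
    rw [hFr] at hE
    exact Pool.Agent.L0h6.WT.t_CRO (q j) r H (m j) 0 (hm j) (hq j) hr' (hq0 j) h5 hH hE

end Pool.Agent.L0h17.WT
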