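import Pool.Agent.L0h17.WT.Stm

set_option autoImplicit false

/-! # Products in disjoint variables (board WT part 2, author helper17) -/

namespace Pool.Agent.L0h17.WT

open MvPolynomial Pool.Agent.N103.V Pool.Agent.N103

/-- Module RES (about 150 lines): restriction of `F(x) G(y)` to a point `y` with `G(y) ≠ 0`.

Proof. Let `(L, φ, D, Gi, U)` be test data for `F` (unfold `Ev`). Test data for `F(x) G(y)`:
`L' = MvPowerSeries τ L` (variables `t_k`, `k : τ`), `φ' = aeval (Sum.elim (fun i => C (φ (X i)))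
(fun k => C (algebraMap (y k)) + X k))`, so `φ' (rename inl f) = C (φ f)` and
`φ' (rename inr g) = map (algebraMap ℂ L) (g(y + t))`; `D'_i` (`i : σ`) is `D i` on the coefficients
(Leibniz: `coeff_mul`, `Derivation.leibniz`), `D'_k = MvPowerSeries.pderiv L k` (restricted to `ℂ`);
`Gi' = C Gi * (φ' (rename inr G))⁻¹`: the power series `g(y + t)`, with constant coefficient
`G(y) ≠ 0`, is a unit already over `ℂ` (`MvPowerSeries.isUnit_iff_constantCoeff`).
For `k : τ` let `∇_k = nab φ' D' (F G) Gi' s (inr k)` and `ev_0 = MvPowerSeries.constantCoeff : L' → L`.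
`U' = {x | ∀ K : List τ, ev_0 (∇_{K_1} ∇_{K_2} ... x) ∈ U}`. Properties:
* `∇_k x ∈ U'` for `x ∈ U'`: clear.
* The operators `φ' (X (inl i)) *` and `nab' (inl i)` commute with all `∇_k` (as operators: they act on the
  coefficients; note `D'_i (F G) / (F G) = C (D i (φ F) * Gi)`), and `ev_0 (nab' (inl i) x) = nab i (ev_0 x)`:
  so `U'` is stable under both.
* multiplication by `φ' (X (inr k)) = y_k + t_k`: by induction on `K` one has
  `∇_K (t_k x) = t_k ∇_K x + ∑ (∇_{K'} x)`, where `K'` runs through the lists `K` with one occurrence of `k`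
  removed; `ev_0` of the first term is `0`. (Simplest: prove by induction on `K`: for all `x ∈ U'`,
  `∇_K (t_k x)` is of the form `t_k z + z'` with `z, z' ∈ U'`; use `∇_j (t_k z) = t_k ∇_j z + δ_{jk} z`.)
* `C l * map (algebraMap ℂ L) c ∈ U'` for `l ∈ U` and any power series `c` over `ℂ`: `∇_k` maps such an
  element to one of the same form (with the same `l`), and `ev_0` of it is `c(0) • l`.
  So `φ' (F G)`, `φ' (∂_i (F G))` (`= C (φ (∂_i F)) * ...`) and `φ' (∂_k (F G))` (`= C (φ F) * ...`) are in `U'`.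
So `φ' H ∈ U'`, and `ev_0 (φ' H) = φ (H(x, y)) ∈ U` (the case `K = []`). -/
def S_RES : Prop := ∀ {σ τ : Type} (F : MvPolynomial σ ℂ) (G : MvPolynomial τ ℂ)
  (H : MvPolynomial (σ ⊕ τ) ℂ) (s : ℂ) (y : τ → ℂ), eval y G ≠ 0 →
  Ev H (rename Sum.inl F * rename Sum.inr G) s →
  Ev (aeval (Sum.elim X (fun k => C (y k))) H) F s

/-- Module PCR (about 60 lines): the exponent `-1` of `F(x) G(y)`.

Proof. Let `a` be a prime factor of `F` with `a(p) = 0`, `F = a ^ m r`, `¬ a ∣ r`, `m ≥ 1`. Then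
`rename inl a` is prime (`prime_rename_iff` for the range of `Sum.inl`, and `renameEquiv`), it does not
divide `rename inl r` (apply `x ↦ x`, `y ↦ 0`) nor `rename inr G` (put `x = p`), and
`rename inl r * rename inr G` vanishes at `(p, q)`. Now `t_CRO` (`Pool/Agent/L0h6/WT/CRO.lean`). -/
def S_PCR : Prop := ∀ {σ τ : Type} (F : MvPolynomial σ ℂ) (G : MvPolynomial τ ℂ)
  (H : MvPolynomial (σ ⊕ τ) ℂ) (p : σ → ℂ) (q : τ → ℂ), F ≠ 0 → G ≠ 0 → eval p F = 0 →
  eval q G = 0 → eval (Sum.elim p q) H ≠ 0 →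
  ¬ Ev H (rename Sum.inl F * rename Sum.inr G) (-1)

end Pool.Agent.L0h17.WT
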