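import Pool.Agent.L0h17.WT.F
import Pool.Agent.L0h17.WT.Stm2

set_option autoImplicit false
set_option linter.unusedSectionVars false
set_option linter.unusedVariables false

/-! # Products in disjoint variables -/

namespace Pool.Agent.L0h17.WT

open MvPolynomial Pool.Agent.W574.SM Pool.Agent.N103 Pool.Agent.N103.V

variable {σ τ : Type}

/-- `F(x) G(y)` -/
noncomputable def prd (F : MvPolynomial σ ℂ) (G : MvPolynomial τ ℂ) : MvPolynomial (σ ⊕ τ) ℂ :=
  rename Sum.inl F * rename Sum.inr G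

theorem eval_left (H : MvPolynomial (σ ⊕ τ) ℂ) (p : σ → ℂ) (y : τ → ℂ) :
    eval p (aeval (Sum.elim X (fun k => C (y k))) H : MvPolynomial σ ℂ) =
      eval (Sum.elim p y) H := by
  induction H using MvPolynomial.induction_on with
  | C a => simp
  | add f g hf hg => rw [map_add, map_add, map_add, hf, hg]
  | mul_X f i hf =>
    rw [map_mul, map_mul, map_mul, hf, aeval_X, eval_X]
    rcases i with i | i <;> simp

theorem eval_right (H : MvPolynomial (σ ⊕ τ) ℂ) (p : σ → ℂ) (y : τ → ℂ) :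
    eval y (aeval (Sum.elim (fun k => C (p k)) X) H : MvPolynomial τ ℂ) =
      eval (Sum.elim p y) H := by
  induction H using MvPolynomial.induction_on with
  | C a => simp
  | add f g hf hg => rw [map_add, map_add, map_add, hf, hg]
  | mul_X f i hf =>
    rw [map_mul, map_mul, map_mul, hf, aeval_X, eval_X]
    rcases i with i | i <;> simp

theorem ev_left (hR : S_RES) {F : MvPolynomial σ ℂ} {G : MvPolynomial τ ℂ} (hG : G ≠ 0)
    {H : MvPolynomial (σ ⊕ τ) ℂ} {s : ℂ} {p : σ → ℂ} {q : τ → ℂ}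
    (hH : eval (Sum.elim p q) H ≠ 0) (hE : Ev H (prd F G) s) :
    ∃ H' : MvPolynomial σ ℂ, eval p H' ≠ 0 ∧ Ev H' F s := by
  have hK : (aeval (Sum.elim (fun k => C (p k)) X) H : MvPolynomial τ ℂ) ≠ 0 := by
    intro h0
    apply hH
    rw [← eval_right, h0, map_zero]
  obtain ⟨y, hy⟩ : ∃ y : τ → ℂ, eval y ((aeval (Sum.elim (fun k => C (p k)) X) H :
      MvPolynomial τ ℂ) * G) ≠ 0 := by
    by_contra hcon
    push Not at hcon
    exact mul_ne_zero hK hG (MvPolynomial.funext fun y => by rw [hcon y, map_zero])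
  rw [map_mul] at hy
  refine ⟨_, ?_, hR F G H s y (right_ne_zero_of_mul hy) hE⟩
  rw [eval_left, ← eval_right]
  exact left_ne_zero_of_mul hy

theorem prd_swap (F : MvPolynomial σ ℂ) (G : MvPolynomial τ ℂ) :
    prd F G = rename (Equiv.sumComm τ σ) (prd G F) := by
  rw [prd, prd, map_mul, rename_rename, rename_rename, mul_comm]
  rfl

theorem ev_right (hR : S_RES) {F : MvPolynomial σ ℂ} {G : MvPolynomial τ ℂ} (hF : F ≠ 0)
    {H : MvPolynomial (σ ⊕ τ) ℂ} {s : ℂ} {p : σ → ℂ} {q : τ → ℂ}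
    (hH : eval (Sum.elim p q) H ≠ 0) (hE : Ev H (prd F G) s) :
    ∃ H' : MvPolynomial τ ℂ, eval q H' ≠ 0 ∧ Ev H' G s := by
  rw [prd_swap] at hE
  refine ev_left hR (p := q) (q := p) hF ?_ (ev_rename (Equiv.sumComm τ σ) hE)
  rw [eval_rename]
  have h1 : Sum.elim q p ∘ (Equiv.sumComm τ σ).symm = Sum.elim p q := by
    funext i
    rcases i with i | i <;> rfl
  rw [h1]
  exact hH

theorem good_prod (hR : S_RES) (hC : S_PCR) {F : MvPolynomial σ ℂ} {G : MvPolynomial τ ℂ}
    {p : σ → ℂ} {q : τ → ℂ} {Z Z' : ℕ → RatFunc ℂ} (hF : Good F p Z) (hG : Good G q Z') :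
    Good (prd F G) (Sum.elim p q) (fun e => Z e * Z' e) where
  ne := mul_ne_zero (fun h => hF.ne (rename_injective _ Sum.inl_injective (by rw [h, map_zero])))
    (fun h => hG.ne (rename_injective _ Sum.inr_injective (by rw [h, map_zero])))
  zero := by
    rw [prd, map_mul, eval_rename]
    have h1 : Sum.elim p q ∘ Sum.inl = p := rfl
    rw [h1, hF.zero, zero_mul]
  re := fun e he s hs => (Reg s).mul_mem (hF.re e he s hs) (hG.re e he s hs)
  one := by
    obtain ⟨r, hr, h1⟩ := hF.one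
    obtain ⟨r', hr', h1'⟩ := hG.one
    have h2 : Val (Z 1) 1 := ⟨r, hr, by rw [h1, map_one]⟩
    have h2' : Val (Z' 1) 1 := ⟨r', hr', by rw [h1', map_one]⟩
    obtain ⟨r'', hr'', h3⟩ := h2.mul h2'
    exact ⟨r'', hr'', by rw [h3, mul_one, map_one]⟩
  high := by
    intro e he H s hH hE
    obtain ⟨H1, hH1, hE1⟩ := ev_left hR hG.ne hH hE
    obtain ⟨H2, hH2, hE2⟩ := ev_right hR hF.ne hH hE
    exact (Reg s).mul_mem (hF.high e he H1 s hH1 hE1) (hG.high e he H2 s hH2 hE2)
  low := by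
    intro H s hH hE
    have hs : s ≠ -1 := by
      rintro rfl
      exact hC F G H p q hF.ne hG.ne hF.zero hG.zero hH hE
    obtain ⟨H1, hH1, hE1⟩ := ev_left hR hG.ne hH hE
    obtain ⟨H2, hH2, hE2⟩ := ev_right hR hF.ne hH hE
    exact (Reg s).mul_mem (X1_mem s) ((Reg s).mul_mem (hF.all le_rfl hH1 hE1 hs)
      (hG.all le_rfl hH2 hE2 hs))

end Pool.Agent.L0h17.WT
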