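import Pool.Agent.N103.V.GoodC
import Pool.Agent.L0h21.SN.CentreB
import Pool.Agent.L0h21.RW.StmB

set_option autoImplicit false

/-! # Zeta functions at weighted centres: the modules (board WT, author helper17)

`Ev H F s` (`Pool/Agent/N103/V/Ev.lean`) says that `H F ^ s` is in the module over the Weyl algebra
which is generated by `F ^ (s + 1)` and the `∂_i F F ^ s`. To disprove it, choose a ring `L` (for
instance `Localization.Away F`, or a fraction field), derivations, and a subspace `U` with the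
properties in the definition, such that `H ∉ U`. Pattern: `pow_contra` in `N103/V/GoodB.lean`
(`Ev.mem` gives the last hypothesis for free if `s ≠ -1`). -/

namespace Pool.Agent.L0h17.WT

open MvPolynomial Pool.Agent.L0h21.SN Pool.Agent.L0h21.RW Pool.Agent.N103.V

/-- Module PRI (100-150 lines): a component of multiplicity `m ≥ 2` through `p`.

Proof. `F = q ^ m G`. `L` = localization of the polynomial ring at the powers of `F` (or the fraction
field), `s = -1 / m`,
`U = {q n / (G ^ k) }` = the elements `x` such that `G ^ k x = q n` for some polynomial `n` and some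
`k` (multiples of `q`, with powers of `G` as denominators; in `L` resp. in the fraction field).
For `x = q y`: `nab_i x = ∂_i x - (1 / m) (m ∂_i q / q + ∂_i G / G) x = q ∂_i y - (1 / m) (∂_i G / G) x`.
`F ∈ U` since `m ≥ 1`; `s ≠ -1`, so `Ev.mem` with `Or.inl`. `H ∈ U` gives `q ∣ G ^ k H` in the
polynomial ring, so `q ∣ H` (prime), against `H(p) ≠ 0 = q(p)`.
See `pow_contra` (`N103/V/GoodB.lean`) and `Pool/Agent/LLead/RW/PC.lean` (same proof with `H = 1`, for
functionals). -/
def S_PRI : Prop := ∀ {V : Type} (q G H : MvPolynomial V ℂ) (m : ℕ) (p : V → ℂ), 2 ≤ m → Prime q →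
  ¬ q ∣ G → eval p q = 0 → eval p H ≠ 0 → ¬ Ev H (q ^ m * G) (-1 / (m : ℂ))

/-- Module CRO (100-150 lines): two components through `p`, exponent `-1`.

Proof. `F = q ^ a R`. `L` = localization at the powers of `F` (or the fraction field), `s = -1`,
`U = {F x : x ∈ W}`, `W = {u / q ^ k + v / R ^ k}`. `W` is stable under multiplication and derivatives,
`nab_i (F x) = F ∂_i x`. `F = F * 1`, `∂_i F = F (a ∂_i q / q + ∂_i R / R)`. `H ∈ U` gives (after
multiplication by `q ^ k R ^ k`, `k ≥ a, 1` large) `H q ^ (k - a) R ^ (k - 1) = u R ^ k + v q ^ k`; as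
`q` is prime, `¬ q ∣ R`: `q ^ (k - a) ∣ u R ^ k`, so `u = q ^ (k - a) u'` and (cancel)
`H R ^ (k - 1) = u' R ^ k + v q ^ a`, so `R ^ (k - 1) ∣ v q ^ a`, hence `R ^ (k - 1) ∣ v`
(`IsRelPrime`/`Prime.pow_dvd_of_dvd_mul_left` for the prime `q`: use that `q ^ a` and `R ^ (k-1)` are
relatively prime) and `H = u' R + v' q ^ a`; the value at `p` is a contradiction.
See `Pool/Agent/LLead/RW/PX.lean` for a similar proof. -/
def S_CRO : Prop := ∀ {V : Type} (q R H : MvPolynomial V ℂ) (a : ℕ) (p : V → ℂ), 1 ≤ a → Prime q →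
  ¬ q ∣ R → eval p q = 0 → eval p R = 0 → eval p H ≠ 0 → ¬ Ev H (q ^ a * R) (-1)

/-- Period functionals which do not vanish at `H`. -/
def PerH {V : Type} (g : MvPolynomial V ℂ) (e0 : ℂ) (H : MvPolynomial V ℂ) : Prop :=
  ∃ S, IsPer' g e0 S ∧ ∃ c ∈ S, c 0 H ≠ 0

/-- Module EVP (60-100 lines): from periods to `Ev`.

Proof. If `F = 0`, then `e2` gives `c m h = 0` for all `m`, `h`, against `c 0 H ≠ 0`. Let
`L = Localization.Away F` (as in `pow_contra`), `s = e0`,
`U = {x | ∀ c ∈ S, ∀ k h, F ^ k x = h (in L) → c k h = 0}`; for `F ^ k x = h` and `F ^ (k + j) x = F ^ j h`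
the condition is the same, by `e2` and `e0 ∉ ℕ`; so it is enough to know it for one `(k, h)` with
`F ^ k x = h` (use this to show that `U` is a subspace, and for the closure properties).
`X_i x`: `mu`. `nab_i x = ∂_i x + e0 (∂_i F / F) x`: if `F ^ k x = h` then
`F ^ (k + 1) nab_i x = F ∂_i h + (e0 - k) ∂_i F h`, and
`c (k + 1) (F ∂_i h + (e0 - k) ∂_i F h) = (k - e0) (c k (∂_i h) - c (k + 1) (∂_i F h)) = (k - e0) c' k h = 0`
by `e2` and `d2`. `F ∈ U`: `e1`; `∂_i F ∈ U`: `d1`. `H ∈ U` gives `c 0 H = 0`. -/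
def S_EVP : Prop := ∀ {V : Type} (F H : MvPolynomial V ℂ) (e0 : ℂ), (∀ n : ℕ, e0 ≠ n) →
  PerH F e0 H → ¬ Ev H F e0

/-- Module CEN (250 lines, mostly copies): the periods of a weighted centre at the origin.

Proof. Let `β = weightedHomogeneousComponent w 0 H`; `β ≠ 0` since `β(0) = H(0) ≠ 0`
(`low_eval` in `SN/CentreB.lean`, or directly). Copies, with `β` in the place of `1`:
* `root_core` (`L0h21/SN/Root2.lean`): replace `C β` (constant) by a polynomial `β` with
  `IsWeightedHomogeneous w β 0`; its specialization `sp w P β` is `C (aeval P β)` (`sp_zero`); the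
  conclusion is `aeval P β = 0`, and for `P = genP1 w` this gives `β = 0` (`gen_ne1`, or
  `aeval_w0`/`atZero1_ne` in `SN/Centre.lean`).
* `exists_functional` and `hp_of` (`L0h47/RW/HB1.lean`, `HB2.lean`): `Λ (single 0 β) ≠ 0`, and
  `c 0 β ≠ 0` at the end. The rest is unchanged (`Phi_rel`, `InS.*` can be used as they are).
* `hb` (`L0h47/RW/HB.lean`) with `β`.
* `t` (`L0h47/RW/TT.lean`): `hat d F₁ c₀ 0 H = c₀ 0 H = c₀ 0 β`, because `c₀ 0 (H - β) = 0` by the
  degree condition. Then `per_centre` (`L0h21/RW/P10.lean`, with `P = 0`, `trl 0 q = q`). -/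
def S_CEN : Prop := ∀ {V J : Type} [Fintype V] [DecidableEq V] [Fintype J] [DecidableEq J]
  (f : J → MvPolynomial V ℂ) (w : V → ℕ) (e : J → ℕ) (g : J → MvPolynomial V ℂ)
  (h : MvPolynomial V ℂ), CentreAt f 0 w e g h → ∀ (m : J → ℕ), (∀ j, 0 < m j) → ∀ (c : ℂ), c ≠ 0 →
  ∀ H : MvPolynomial V ℂ, eval 0 H ≠ 0 → 0 < ∑ j, m j * e j ∧
    PerH (C c * ∏ j, f j ^ m j) (-((∑ v, w v : ℕ) : ℂ) / (∑ j, m j * e j : ℕ)) H

/-- Module FAC (100-150 lines): a prime factor of `f_j` through a weighted centre at the origin.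

Proof. `f j ≠ 0` (`CentreAt.f_ne`), so it has a prime factor `q` with `q(0) = 0` (as in
`exists_prime_at`, `L0h21/RW/P10.lean`). Let `(a, q')` be the low form of `q` (`exists_low`), so
`g j = q' r'` (`LowC.mul`, `LowC.unique`, `trl 0 = id`), and `q'(0) = 0` (`low_eval`). The proof of
`CentreAt.zero` (`SN/CentreB.lean`), for `q'` in the place of `g j`, gives a point `Q` with
`SNCAt' g Q` and `q'(Q) = 0`. There the gradient of `g j` is not zero (`snc_grad`), so `r'(Q) ≠ 0`, hence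
`¬ q' ∣ r'`; so `¬ q ∣ f j / q`. And `¬ q' ∣ g i` for `i ≠ j` (`snc_not_dvd`), so `¬ q ∣ f i`. Then
`r = c (f j / q) ^ m j ∏_{i ≠ j} f i ^ m i` as in `per_comp`. -/
def S_FAC : Prop := ∀ {V J : Type} [Fintype V] [DecidableEq V] [Fintype J] [DecidableEq J]
  (f : J → MvPolynomial V ℂ) (w : V → ℕ) (e : J → ℕ) (g : J → MvPolynomial V ℂ)
  (h : MvPolynomial V ℂ), CentreAt f 0 w e g h → ∀ (m : J → ℕ), (∀ j, 0 < m j) → ∀ (c : ℂ), c ≠ 0 →
  ∀ j, eval 0 (f j) = 0 → ∃ q r : MvPolynomial V ℂ, Prime q ∧ eval 0 q = 0 ∧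
    C c * ∏ j, f j ^ m j = q ^ m j * r ∧ ¬ q ∣ r ∧ ∀ i, i ≠ j → eval 0 (f i) = 0 → eval 0 r = 0

end Pool.Agent.L0h17.WT
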