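import Pool.Agent.L0h17.WT.Stm

set_option autoImplicit false

/-! # Etale coordinates (board WT part 3, author helper17) -/

namespace Pool.Agent.L0h17.WT

open MvPolynomial Pool.Agent.N103.V Pool.Agent.N103

/-- Module UNI (about 60 lines): universality of the localization. Let `L₀ = Localization.Away F`,
`D₀ i` derivations which extend the `pderiv i`, `Gi₀` the inverse of `F`. If `K` lies in EVERY subspace `U₀` of
`L₀` which is stable under the `X_i` and the `nab_i` and contains `F` and the `∂_i F`, then `Ev K F s`.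

Proof. Let `(L, φ, D, Gi, U)` be test data (unfold `Ev`) and `g : L₀ → L` the lift of `φ`
(`IsLocalization.Away.lift` or `IsLocalization.liftAlgHom`; `g (algebraMap p) = φ p`). `g (D₀ i x) = D i (g x)`
for all `x ∈ L₀`: choose `n` and a polynomial `h` with `x * F ^ n = h` and apply `g ∘ D₀ i` resp. `D i ∘ g`
(Leibniz), cancel `φ F ^ n` (multiply by `Gi ^ n`). `g Gi₀ = Gi` (uniqueness of inverses). So
`g (nab₀ i x) = nab i (g x)` and `U₀ = U.comap g` (as a submodule over `ℂ`) has the properties. -/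
def S_UNI : Prop := ∀ {V : Type} (F K : MvPolynomial V ℂ) (s : ℂ), F ≠ 0 →
  ∀ (D₀ : V → Derivation ℂ (Localization.Away F) (Localization.Away F))
    (Gi₀ : Localization.Away F),
  (∀ i p, D₀ i (algebraMap (MvPolynomial V ℂ) _ p) = algebraMap _ _ (pderiv i p)) →
  algebraMap (MvPolynomial V ℂ) (Localization.Away F) F * Gi₀ = 1 →
  (∀ U₀ : Submodule ℂ (Localization.Away F),
    (∀ i, ∀ x ∈ U₀, algebraMap (MvPolynomial V ℂ) _ (X i) * x ∈ U₀) →
    (∀ i, ∀ x ∈ U₀, nab (IsScalarTower.toAlgHom ℂ (MvPolynomial V ℂ) (Localization.Away F))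
      D₀ F Gi₀ s i x ∈ U₀) →
    algebraMap (MvPolynomial V ℂ) _ F ∈ U₀ →
    (∀ i, algebraMap (MvPolynomial V ℂ) _ (pderiv i F) ∈ U₀) →
    algebraMap (MvPolynomial V ℂ) _ K ∈ U₀) → Ev K F s

/-- Module ETA (about 130 lines, uses `S_UNI` as a hypothesis): etale changes of coordinates.

Proof. `F' = φ F`, `δ` = the determinant. Let `L₀ = Localization.Away F'` with the derivations `D₀ i`
(`exists_locDer`, see `pow_contra` in `N103/V/GoodB.lean`), and let `U₀` be the smallest subspace (`sInf`)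
with the properties in `S_UNI` for `F'`. Let `L₁ = Localization.Away (algebraMap δ : L₀)` with the derivations
`D₁ i` which extend the `D₀ i`; `L₀ → L₁` is injective (domains, `δ ≠ 0`). Let
`U₁ = {x | ∃ n, ∃ u ∈ U₀, δ ^ n x = u}`. Test data for `F`: `L₁`, `φ₁ = (polynomials → L₀ → L₁) ∘ φ`,
`D' i = ∑_k (adjugate entry / δ) D₁ k`, such that `D' i (φ₁ (X j))` is `1` for `i = j` and `0` otherwise; by the
chain rule `∂_k (φ p) = ∑_j φ (∂_j p) ∂_k (φ (X j))` (for instance from `der_eq`-like inductions on `p`)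
one gets `D' i (φ₁ p) = φ₁ (∂_i p)`. `U₁` is stable under `φ₁ (X i)` (a polynomial; `mulU` in
`N103/V/Susp.lean`), and under `nab'_i = ∑_k (adjugate entry / δ) nab_k`, because
`δ ^ (n + 1) nab_k x = δ nab_k u - n (∂_k δ) u` for `δ ^ n x = u`. `φ₁ F ∈ U₁`, and `φ₁ (∂_i F) = D' i (φ₁ F) ∈ U₁`.
So `φ₁ H ∈ U₁`: `K = δ ^ n φ(H)` is in `U₀` for some `n`. `K(0) = δ(0) ^ n H(0) ≠ 0`, and `Ev K F' s` by
`S_UNI`. -/
def S_ETA : Prop := ∀ {V : Type} [Fintype V] [DecidableEq V]
  (φ : MvPolynomial V ℂ →ₐ[ℂ] MvPolynomial V ℂ) (F H : MvPolynomial V ℂ) (s : ℂ),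
  (∀ v, eval 0 (φ (X v)) = 0) →
  eval 0 (Matrix.det (Matrix.of fun i k => pderiv k (φ (X i)))) ≠ 0 → φ F ≠ 0 → eval 0 H ≠ 0 →
  Ev H F s → ∃ K : MvPolynomial V ℂ, eval 0 K ≠ 0 ∧ Ev K (φ F) s

end Pool.Agent.L0h17.WT
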