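import Pool.Agent.L0h28.WT.ETA
import Pool.Agent.L0h95.WT.UNI
import Pool.Agent.L0h72.WT.RES

/-!
# Units (board WT, author helper17)
-/

set_option autoImplicit false
set_option linter.all false

namespace Pool.Agent.L0h17.WT

open MvPolynomial Pool.Agent.N103.V Pool.Agent.N103 Pool.Agent.L0h28.WT

/-- Units can be removed. -/
theorem ev_unit {V : Type} (F u H : MvPolynomial V ℂ) (s : ℂ) (hF : F ≠ 0) (hu : u ≠ 0)
    (hE : Ev H (u * F) s) : ∃ n : ℕ, Ev (u ^ n * H) F s := by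
  classical
  -- the first localization
  have hpow : Submonoid.powers F ≤ nonZeroDivisors (MvPolynomial V ℂ) :=
    powers_le_nonZeroDivisors_of_noZeroDivisors hF
  have hinj : Function.Injective (algebraMap (MvPolynomial V ℂ) (Localization.Away F)) :=
    IsLocalization.injective _ hpow
  haveI hdom : IsDomain (Localization.Away F) := IsLocalization.isDomain_localization hpow
  set jj := algebraMap (MvPolynomial V ℂ) (Localization.Away F) with hjj
  have hder : ∀ i : V, ∃ E : Derivation ℂ (Localization.Away F) (Localization.Away F),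
      ∀ x, E (jj x) = jj (MvPolynomial.pderiv i x) := fun i =>
    exists_locDer (B := Localization.Away F) (Submonoid.powers F) (MvPolynomial.pderiv i)
  choose D₀ hD₀ using hder
  obtain ⟨Gi₀, hGi₀⟩ := (IsLocalization.Away.algebraMap_isUnit (S := Localization.Away F) F).exists_right_inv
  set φ₀ : MvPolynomial V ℂ →ₐ[ℂ] Localization.Away F :=
    IsScalarTower.toAlgHom ℂ (MvPolynomial V ℂ) (Localization.Away F) with hφ₀
  have hφa : ∀ x, φ₀ x = jj x := fun x => rfl
  -- the smallest stable subspace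
  set P : Submodule ℂ (Localization.Away F) → Prop := fun U₀ =>
    (∀ i, ∀ x ∈ U₀, φ₀ (X i) * x ∈ U₀) ∧ (∀ i, ∀ x ∈ U₀, nab φ₀ D₀ F Gi₀ s i x ∈ U₀) ∧
      φ₀ F ∈ U₀ ∧ (∀ i, φ₀ (pderiv i F) ∈ U₀) with hP
  set U₀ := sInf {U | P U} with hU₀
  have hPU : P U₀ := by
    refine ⟨fun i x hx => ?_, fun i x hx => ?_, ?_, fun i => ?_⟩
    · rw [Submodule.mem_sInf] at hx ⊢
      exact fun W hW => hW.1 i x (hx W hW)
    · rw [Submodule.mem_sInf] at hx ⊢
      exact fun W hW => hW.2.1 i x (hx W hW)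
    · rw [Submodule.mem_sInf]
      exact fun W hW => hW.2.2.1
    · rw [Submodule.mem_sInf]
      exact fun W hW => hW.2.2.2 i
  obtain ⟨p1, p2, p3, p4⟩ := hPU
  have pm : ∀ q : MvPolynomial V ℂ, ∀ x ∈ U₀, jj q * x ∈ U₀ := fun q => mulU' (φ := φ₀) p1 q
  -- the second localization
  have hdne : jj u ≠ 0 := fun h0 => hu (hinj (by rw [h0, map_zero]))
  have hpow1 : Submonoid.powers (jj u) ≤ nonZeroDivisors (Localization.Away F) :=
    powers_le_nonZeroDivisors_of_noZeroDivisors hdne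
  have hinj1 : Function.Injective (algebraMap (Localization.Away F) (Localization.Away (jj u))) :=
    IsLocalization.injective _ hpow1
  set ι := algebraMap (Localization.Away F) (Localization.Away (jj u)) with hι
  have hder1 : ∀ i : V, ∃ E : Derivation ℂ (Localization.Away (jj u)) (Localization.Away (jj u)),
      ∀ x, E (ι x) = ι (D₀ i x) := fun i =>
    exists_locDer (B := Localization.Away (jj u)) (Submonoid.powers (jj u)) (D₀ i)
  choose D₁ hD₁ using hder1
  obtain ⟨ui, hui⟩ := (IsLocalization.Away.algebraMap_isUnit (S := Localization.Away (jj u)) (jj u)).exists_right_inv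
  set ιa : Localization.Away F →ₐ[ℂ] Localization.Away (jj u) :=
    IsScalarTower.toAlgHom ℂ (Localization.Away F) (Localization.Away (jj u)) with hιa
  have hιa' : ∀ x, ιa x = ι x := fun x => rfl
  set Φ : MvPolynomial V ℂ →ₐ[ℂ] Localization.Away (jj u) := ιa.comp φ₀ with hΦ
  have hΦa : ∀ p, Φ p = ι (jj p) := fun p => rfl
  have hchain : ∀ i p, D₁ i (Φ p) = Φ (pderiv i p) := fun i p => by
    rw [hΦa, hD₁, hD₀, hΦa]
  have hG0 : Φ F * ι Gi₀ = 1 := by
    rw [hΦa, ← map_mul]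
    have : jj F * Gi₀ = 1 := hGi₀
    rw [this, map_one]
  have hu1 : Φ u * ui = 1 := hui
  have hG1 : Φ (u * F) * (ui * ι Gi₀) = 1 := by
    rw [map_mul]
    linear_combination (Φ F * ι Gi₀) * hu1 + hG0
  -- the subspace
  let U₁ : Submodule ℂ (Localization.Away (jj u)) :=
    { carrier := {x | ∃ n : ℕ, ∃ v ∈ U₀, ι (jj u) ^ n * x = ι v}
      add_mem' := by
        rintro x y ⟨n, a, ha, hx⟩ ⟨m, v, hv, hy⟩
        refine ⟨n + m, jj (u ^ m) * a + jj (u ^ n) * v, U₀.add_mem (pm _ _ ha) (pm _ _ hv), ?_⟩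
        rw [map_add, map_mul, map_mul, ← hx, ← hy, map_pow, map_pow, map_pow, map_pow]
        ring
      zero_mem' := ⟨0, 0, U₀.zero_mem, by rw [mul_zero, map_zero]⟩
      smul_mem' := by
        rintro z x ⟨n, a, ha, hx⟩
        refine ⟨n, z • a, U₀.smul_mem z ha, ?_⟩
        have : ι (z • a) = z • ι a := map_smul ιa z a
        rw [this, ← hx, mul_smul_comm] }
  have hnab : ∀ k, ∀ x ∈ U₁, (D₁ k x + algebraMap ℂ _ s *
      (D₁ k (Φ F) * ι Gi₀) * x) ∈ U₁ := by
    rintro k x ⟨n, a, ha, hx⟩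
    refine ⟨n + 1, jj u * nab φ₀ D₀ F Gi₀ s k a - (n : ℂ) • (jj (pderiv k u) * a), ?_, ?_⟩
    · exact U₀.sub_mem (pm _ _ (p2 k a ha)) (U₀.smul_mem _ (pm _ _ ha))
    · have h1 : D₁ k (ι (jj u) ^ n * x) = D₁ k (ι a) := by rw [hx]
      rw [Derivation.leibniz, Derivation.leibniz_pow, hD₁, hD₁, hD₀, smul_eq_mul, smul_eq_mul, smul_eq_mul,
        nsmul_eq_mul] at h1
      have h2 : ι (algebraMap ℂ (Localization.Away F) s) = algebraMap ℂ (Localization.Away (jj u)) s :=
        ιa.commutes s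
      have h3 : ι ((n : ℂ) • (jj (pderiv k u) * a)) = (n : Localization.Away (jj u)) * (ι (jj (pderiv k u)) * ι a) := by
        have : ι ((n : ℂ) • (jj (pderiv k u) * a)) = (n : ℂ) • ι (jj (pderiv k u) * a) := map_smul ιa _ _
        rw [this, map_mul]
        refine (Algebra.smul_def (n : ℂ) (ι (jj (pderiv k u)) * ι a)).trans ?_
        rw [map_natCast]
      have h5 : ι (nab φ₀ D₀ F Gi₀ s k a) = ι (D₀ k a) + algebraMap ℂ (Localization.Away (jj u)) s *
          (ι (D₀ k (jj F)) * ι Gi₀) * ι a := by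
        rw [nab_apply, map_add, map_mul, map_mul, map_mul, h2, hφa]
      have h4 : ι (jj u * nab φ₀ D₀ F Gi₀ s k a - (n : ℂ) • (jj (pderiv k u) * a)) =
          ι (jj u) * ι (nab φ₀ D₀ F Gi₀ s k a) - (n : Localization.Away (jj u)) * (ι (jj (pderiv k u)) * ι a) := by
        refine (map_sub ι _ _).trans ?_
        rw [h3, map_mul]
      rw [h4, h5, hΦa, hD₁, ← h1, ← hx]
      rcases Nat.eq_zero_or_pos n with hn | hn
      · subst hn
        simp only [pow_zero, one_mul, Nat.cast_zero, zero_mul, mul_zero, add_zero, zero_add, pow_one, sub_zero]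
      · obtain ⟨m, rfl⟩ : ∃ m, n = m + 1 := ⟨n - 1, by omega⟩
        have e : m + 1 - 1 = m := rfl
        rw [e]
        ring
  have hmem := hE (Localization.Away (jj u)) Φ D₁ (ui * ι Gi₀) hchain hG1 U₁
    (by
      rintro i x ⟨n, a, ha, hx⟩
      refine ⟨n, jj (X i) * a, pm _ _ ha, ?_⟩
      rw [map_mul, ← hx, hΦa]
      ring)
    (by
      intro i x hx
      have e1 : nab Φ D₁ (u * F) (ui * ι Gi₀) s i x = (D₁ i x + algebraMap ℂ _ s *
          (D₁ i (Φ F) * ι Gi₀) * x) + s • (Φ (pderiv i u) * ui * x) := by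
        have h7 : s • (Φ (pderiv i u) * ui * x) = algebraMap ℂ (Localization.Away (jj u)) s *
            (Φ (pderiv i u) * ui * x) := Algebra.smul_def s (Φ (pderiv i u) * ui * x)
        rw [nab_apply, h7, map_mul Φ, Derivation.leibniz, smul_eq_mul, smul_eq_mul, hchain, hchain]
        linear_combination (algebraMap ℂ (Localization.Away (jj u)) s * Φ (pderiv i F) * ι Gi₀ * x) * hu1
          + (algebraMap ℂ (Localization.Away (jj u)) s * Φ (pderiv i u) * ui * x) * hG0
      rw [e1]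
      refine U₁.add_mem (hnab i x hx) (U₁.smul_mem s ?_)
      obtain ⟨n, a, ha, hx⟩ := hx
      refine ⟨n + 1, jj (pderiv i u) * a, pm _ _ ha, ?_⟩
      rw [map_mul, ← hx, hΦa]
      have hui' : ι (jj u) * ui = 1 := hui
      linear_combination (ι (jj (pderiv i u)) * ι (jj u) ^ n * x) * hui')
    ⟨0, jj u * jj F, pm _ _ p3, by rw [pow_zero, one_mul, hΦa, map_mul jj]⟩
    (by
      intro i
      refine ⟨0, jj u * jj (pderiv i F) + jj (pderiv i u) * jj F,
        U₀.add_mem (pm _ _ (p4 i)) (pm _ _ p3), ?_⟩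
      rw [pow_zero, one_mul, hΦa, Derivation.leibniz, smul_eq_mul, smul_eq_mul, ← map_mul jj, ← map_mul jj,
        ← map_add jj]
      congr 2
      ring)
  obtain ⟨n, a, ha, hx⟩ := hmem
  refine ⟨n, ?_⟩
  have hK : jj (u ^ n * H) = a := by
    apply hinj1
    rw [← hx, hΦa, map_mul, map_mul, map_pow, map_pow]
  refine Pool.Agent.L0h95.WT.t_UNI F (u ^ n * H) s hF D₀ Gi₀ hD₀ hGi₀ ?_
  intro U g1 g2 g3 g4
  have h5 : U₀ ≤ U := sInf_le ⟨g1, g2, g3, g4⟩
  have h6 : jj (u ^ n * H) ∈ U₀ := by rw [hK]; exact ha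
  exact h5 h6

/-- Etale changes of coordinates (the proof is helper28's `t_ETA`). -/
theorem ev_etale {V : Type} [Fintype V] [DecidableEq V]
    (φ : MvPolynomial V ℂ →ₐ[ℂ] MvPolynomial V ℂ) (F H : MvPolynomial V ℂ) (s : ℂ)
    (hδne' : (Matrix.of fun i k : V => pderiv k (φ (X i))).det ≠ 0) (hF : φ F ≠ 0)
    (hE : Ev H F s) :
    ∃ n : ℕ, Ev ((Matrix.of fun i k : V => pderiv k (φ (X i))).det ^ n * φ H) (φ F) s := by
  have hU : S_UNI := Pool.Agent.L0h95.WT.t_UNI
  set F' := φ F with hF'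
  set M : Matrix V V (MvPolynomial V ℂ) := Matrix.of fun i k => pderiv k (φ (X i)) with hM
  set δ := M.det with hδ
  have hδne : δ ≠ 0 := hδne'
  -- the first localization
  have hpow : Submonoid.powers F' ≤ nonZeroDivisors (MvPolynomial V ℂ) :=
    powers_le_nonZeroDivisors_of_noZeroDivisors hF
  have hinj : Function.Injective (algebraMap (MvPolynomial V ℂ) (Localization.Away F')) :=
    IsLocalization.injective _ hpow
  haveI hdom : IsDomain (Localization.Away F') := IsLocalization.isDomain_localization hpow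
  set jj := algebraMap (MvPolynomial V ℂ) (Localization.Away F') with hjj
  have hder : ∀ i : V, ∃ E : Derivation ℂ (Localization.Away F') (Localization.Away F'),
      ∀ x, E (jj x) = jj (MvPolynomial.pderiv i x) := fun i =>
    exists_locDer (B := Localization.Away F') (Submonoid.powers F') (MvPolynomial.pderiv i)
  choose D₀ hD₀ using hder
  obtain ⟨Gi₀, hGi₀⟩ := (IsLocalization.Away.algebraMap_isUnit (S := Localization.Away F') F').exists_right_inv
  set φ₀ : MvPolynomial V ℂ →ₐ[ℂ] Localization.Away F' :=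
    IsScalarTower.toAlgHom ℂ (MvPolynomial V ℂ) (Localization.Away F') with hφ₀
  have hφa : ∀ x, φ₀ x = jj x := fun x => rfl
  -- the smallest stable subspace
  set P : Submodule ℂ (Localization.Away F') → Prop := fun U₀ =>
    (∀ i, ∀ x ∈ U₀, φ₀ (X i) * x ∈ U₀) ∧ (∀ i, ∀ x ∈ U₀, nab φ₀ D₀ F' Gi₀ s i x ∈ U₀) ∧
      φ₀ F' ∈ U₀ ∧ (∀ i, φ₀ (pderiv i F') ∈ U₀) with hP
  set U₀ := sInf {U | P U} with hU₀
  have hPU : P U₀ := by
    refine ⟨fun i x hx => ?_, fun i x hx => ?_, ?_, fun i => ?_⟩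
    · rw [Submodule.mem_sInf] at hx ⊢
      exact fun W hW => hW.1 i x (hx W hW)
    · rw [Submodule.mem_sInf] at hx ⊢
      exact fun W hW => hW.2.1 i x (hx W hW)
    · rw [Submodule.mem_sInf]
      exact fun W hW => hW.2.2.1
    · rw [Submodule.mem_sInf]
      exact fun W hW => hW.2.2.2 i
  obtain ⟨p1, p2, p3, p4⟩ := hPU
  have pm : ∀ q : MvPolynomial V ℂ, ∀ x ∈ U₀, jj q * x ∈ U₀ := fun q => mulU' (φ := φ₀) p1 q
  -- the second localization
  have hdne : jj δ ≠ 0 := fun h0 => hδne (hinj (by rw [h0, map_zero]))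
  have hpow1 : Submonoid.powers (jj δ) ≤ nonZeroDivisors (Localization.Away F') :=
    powers_le_nonZeroDivisors_of_noZeroDivisors hdne
  have hinj1 : Function.Injective (algebraMap (Localization.Away F') (Localization.Away (jj δ))) :=
    IsLocalization.injective _ hpow1
  set ι := algebraMap (Localization.Away F') (Localization.Away (jj δ)) with hι
  have hder1 : ∀ i : V, ∃ E : Derivation ℂ (Localization.Away (jj δ)) (Localization.Away (jj δ)),
      ∀ x, E (ι x) = ι (D₀ i x) := fun i =>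
    exists_locDer (B := Localization.Away (jj δ)) (Submonoid.powers (jj δ)) (D₀ i)
  choose D₁ hD₁ using hder1
  obtain ⟨di, hdi⟩ := (IsLocalization.Away.algebraMap_isUnit (S := Localization.Away (jj δ)) (jj δ)).exists_right_inv
  set ιa : Localization.Away F' →ₐ[ℂ] Localization.Away (jj δ) :=
    IsScalarTower.toAlgHom ℂ (Localization.Away F') (Localization.Away (jj δ)) with hιa
  have hιa' : ∀ x, ιa x = ι x := fun x => rfl
  set Φ : MvPolynomial V ℂ →ₐ[ℂ] Localization.Away (jj δ) := (ιa.comp φ₀).comp φ with hΦ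
  have hΦa : ∀ p, Φ p = ι (jj (φ p)) := fun p => rfl
  set c : V → V → Localization.Away (jj δ) := fun i k => ι (jj (M.adjugate k i)) * di with hc
  set D' : V → Derivation ℂ (Localization.Away (jj δ)) (Localization.Away (jj δ)) :=
    fun i => ∑ k, c i k • D₁ k with hD'
  have hD'a : ∀ i x, D' i x = ∑ k, c i k * D₁ k x := by
    intro i x
    exact sum_der Finset.univ (fun k => c i k • D₁ k) x
  have hX : ∀ i j, D' i (Φ (X j)) = if i = j then 1 else 0 := by
    intro i j
    rw [hD'a]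
    have e1 : ∀ k, c i k * D₁ k (Φ (X j)) = ι (jj (M j k * M.adjugate k i)) * di := by
      intro k
      rw [hΦa, hD₁, hD₀, map_mul, map_mul]
      have e2 : M j k = pderiv k (φ (X j)) := rfl
      rw [e2, hc]
      ring
    rw [Finset.sum_congr rfl fun k _ => e1 k, ← Finset.sum_mul, ← map_sum, ← map_sum]
    have e3 : ∑ k, M j k * M.adjugate k i = (M * M.adjugate) j i := rfl
    rw [e3, Matrix.mul_adjugate, Matrix.smul_apply, Matrix.one_apply, smul_eq_mul]
    by_cases hij : i = j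
    · subst hij
      rw [if_pos rfl, if_pos rfl, mul_one]
      exact hdi
    · rw [if_neg (Ne.symm hij), if_neg hij, mul_zero, map_zero, map_zero, zero_mul]
  have hchain : ∀ i p, D' i (Φ p) = Φ (pderiv i p) := fun i p => der_chain Φ (D' i) (fun _ => 0) 0 i (hX i) p
  have hG1 : Φ F * ι Gi₀ = 1 := by
    rw [hΦa, ← map_mul]
    have : jj (φ F) * Gi₀ = 1 := hGi₀
    rw [this, map_one]
  -- the subspace
  let U₁ : Submodule ℂ (Localization.Away (jj δ)) :=
    { carrier := {x | ∃ n : ℕ, ∃ u ∈ U₀, ι (jj δ) ^ n * x = ι u}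
      add_mem' := by
        rintro x y ⟨n, u, hu, hx⟩ ⟨m, v, hv, hy⟩
        refine ⟨n + m, jj (δ ^ m) * u + jj (δ ^ n) * v, U₀.add_mem (pm _ _ hu) (pm _ _ hv), ?_⟩
        rw [map_add, map_mul, map_mul, ← hx, ← hy, map_pow, map_pow, map_pow, map_pow]
        ring
      zero_mem' := ⟨0, 0, U₀.zero_mem, by rw [mul_zero, map_zero]⟩
      smul_mem' := by
        rintro z x ⟨n, u, hu, hx⟩
        refine ⟨n, z • u, U₀.smul_mem z hu, ?_⟩
        have : ι (z • u) = z • ι u := map_smul ιa z u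
        rw [this, ← hx, mul_smul_comm] }
  have hU₁ : ∀ x, x ∈ U₁ ↔ ∃ n : ℕ, ∃ u ∈ U₀, ι (jj δ) ^ n * x = ι u := fun x => Iff.rfl
  -- the coefficients
  have hcm : ∀ i k, ∀ x, (∃ n : ℕ, ∃ u ∈ U₀, ι (jj δ) ^ n * x = ι u) → c i k * x ∈ U₁ := by
    rintro i k x ⟨n, u, hu, hx⟩
    refine ⟨n + 1, jj (M.adjugate k i) * u, pm _ _ hu, ?_⟩
    rw [map_mul, ← hx, hc]
    have hdi' : ι (jj δ) * di = 1 := hdi
    linear_combination (ι (jj (M.adjugate k i)) * ι (jj δ) ^ n * x) * hdi'
  have hnab : ∀ k, ∀ x ∈ U₁, ∃ n : ℕ, ∃ u ∈ U₀, ι (jj δ) ^ n * (D₁ k x + algebraMap ℂ _ s *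
      (D₁ k (Φ F) * ι Gi₀) * x) = ι u := by
    rintro k x ⟨n, u, hu, hx⟩
    refine ⟨n + 1, jj δ * nab φ₀ D₀ F' Gi₀ s k u - (n : ℂ) • (jj (pderiv k δ) * u), ?_, ?_⟩
    · exact U₀.sub_mem (pm _ _ (p2 k u hu)) (U₀.smul_mem _ (pm _ _ hu))
    · have h1 : D₁ k (ι (jj δ) ^ n * x) = D₁ k (ι u) := by rw [hx]
      rw [Derivation.leibniz, Derivation.leibniz_pow, hD₁, hD₁, hD₀, smul_eq_mul, smul_eq_mul, smul_eq_mul,
        nsmul_eq_mul] at h1
      have h2 : ι (algebraMap ℂ (Localization.Away F') s) = algebraMap ℂ (Localization.Away (jj δ)) s :=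
        ιa.commutes s
      have h3 : ι ((n : ℂ) • (jj (pderiv k δ) * u)) = (n : Localization.Away (jj δ)) * (ι (jj (pderiv k δ)) * ι u) := by
        have : ι ((n : ℂ) • (jj (pderiv k δ) * u)) = (n : ℂ) • ι (jj (pderiv k δ) * u) := map_smul ιa _ _
        rw [this, map_mul]
        refine (Algebra.smul_def (n : ℂ) (ι (jj (pderiv k δ)) * ι u)).trans ?_
        rw [map_natCast]
      have h5 : ι (nab φ₀ D₀ F' Gi₀ s k u) = ι (D₀ k u) + algebraMap ℂ (Localization.Away (jj δ)) s *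
          (ι (D₀ k (jj F')) * ι Gi₀) * ι u := by
        rw [nab_apply, map_add, map_mul, map_mul, map_mul, h2, hφa]
      have h4 : ι (jj δ * nab φ₀ D₀ F' Gi₀ s k u - (n : ℂ) • (jj (pderiv k δ) * u)) =
          ι (jj δ) * ι (nab φ₀ D₀ F' Gi₀ s k u) - (n : Localization.Away (jj δ)) * (ι (jj (pderiv k δ)) * ι u) := by
        refine (map_sub ι _ _).trans ?_
        rw [h3, map_mul]
      rw [h4, h5, hΦa, hD₁, ← h1, ← hx]
      rcases Nat.eq_zero_or_pos n with hn | hn
      · subst hn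
        simp only [pow_zero, one_mul, Nat.cast_zero, zero_mul, mul_zero, add_zero, zero_add, pow_one, sub_zero]
        rw [← hF']
      · obtain ⟨m, rfl⟩ : ∃ m, n = m + 1 := ⟨n - 1, by omega⟩
        have e : m + 1 - 1 = m := rfl
        rw [e, ← hF']
        ring
  have hmem := hE (Localization.Away (jj δ)) Φ D' (ι Gi₀) hchain hG1 U₁
    (by
      rintro i x ⟨n, u, hu, hx⟩
      refine ⟨n, jj (φ (X i)) * u, pm _ _ hu, ?_⟩
      rw [map_mul, ← hx, hΦa]
      ring)
    (by
      intro i x hx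
      have e1 : nab Φ D' F (ι Gi₀) s i x = ∑ k, c i k * (D₁ k x + algebraMap ℂ _ s *
          (D₁ k (Φ F) * ι Gi₀) * x) := by
        rw [nab_apply, hD'a, hD'a, Finset.sum_mul, Finset.mul_sum, Finset.sum_mul, ← Finset.sum_add_distrib]
        refine Finset.sum_congr rfl fun k _ => ?_
        ring
      rw [e1]
      exact U₁.sum_mem fun k _ => hcm i k _ (hnab k x hx))
    ⟨0, jj F', p3, by rw [pow_zero, one_mul, hΦa]⟩
    (by
      intro i
      rw [← hchain, hD'a]
      refine U₁.sum_mem fun k _ => hcm i k _ ⟨0, jj (pderiv k F'), p4 k, ?_⟩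
      rw [pow_zero, one_mul, hΦa, hD₁, hD₀])
  obtain ⟨n, u, hu, hx⟩ := hmem
  refine ⟨n, ?_⟩
  · have hK : jj (δ ^ n * φ H) = u := by
      apply hinj1
      rw [← hx, hΦa, map_mul, map_mul, map_pow, map_pow]
    refine hU F' (δ ^ n * φ H) s hF D₀ Gi₀ hD₀ hGi₀ ?_
    intro U g1 g2 g3 g4
    have h5 : U₀ ≤ U := sInf_le ⟨g1, g2, g3, g4⟩
    have h6 : jj (δ ^ n * φ H) ∈ U₀ := by rw [hK]; exact hu
    exact h5 h6


end Pool.Agent.L0h17.WT
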