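import Pool.Agent.L0h17.WT.U
import Pool.Agent.L0h17.WT.H

/-!
# Coordinates, units, dummy variables (board WT, author helper17)
-/

set_option autoImplicit false
set_option linter.all false

namespace Pool.Agent.L0h17.WT

open MvPolynomial Pool.Agent.N103.V Pool.Agent.N103 Pool.Agent.W574.SM

/-- `Good` is inherited when the exponents are. -/
theorem good_transfer {σ τ : Type} {F : MvPolynomial σ ℂ} {G : MvPolynomial τ ℂ} {p : σ → ℂ}
    {q : τ → ℂ} {Z : ℕ → RatFunc ℂ} (hF : Good F p Z) (hne : G ≠ 0) (h0 : eval q G = 0)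
    (h : ∀ (H : MvPolynomial τ ℂ) (s : ℂ), eval q H ≠ 0 → Ev H G s →
      ∃ K : MvPolynomial σ ℂ, eval p K ≠ 0 ∧ Ev K F s) : Good G q Z where
  ne := hne
  zero := h0
  re := hF.re
  one := hF.one
  high := by
    intro e he H s hH hE
    obtain ⟨K, hK, hE'⟩ := h H s hH hE
    exact hF.high e he K s hK hE'
  low := by
    intro H s hH hE
    obtain ⟨K, hK, hE'⟩ := h H s hH hE
    exact hF.low K s hK hE'

/-- Renaming of the variables, dummy variables. -/
theorem good_rename {σ τ : Type} {F : MvPolynomial σ ℂ} (i : σ → τ) (hi : Function.Injective i)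
    {q : τ → ℂ} {Z : ℕ → RatFunc ℂ} (hF : Good F (q ∘ i) Z) : Good (rename i F) q Z := by
  classical
  refine good_transfer hF (fun h => hF.ne (rename_injective _ hi (by rw [h, map_zero])))
    (by rw [eval_rename]; exact hF.zero) ?_
  intro H s hH hE
  let E : σ ⊕ {t // t ∈ (Set.range i)ᶜ} ≃ τ :=
    (Equiv.sumCongr (Equiv.ofInjective i hi) (Equiv.refl _)).trans (Equiv.Set.sumCompl (Set.range i))
  have hE1 : ∀ x, E (Sum.inl x) = i x := by
    intro x
    simp [E]
  have h1 : rename E (rename Sum.inl F *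
      rename (Sum.inr : {t // t ∈ (Set.range i)ᶜ} → σ ⊕ {t // t ∈ (Set.range i)ᶜ}) 1) = rename i F := by
    have h5 : (⇑E ∘ Sum.inl : σ → τ) = i := by
      funext x
      exact hE1 x
    rw [map_one, mul_one, rename_rename, h5]
  rw [← h1] at hE
  have h2 := ev_rename E hE
  have h3 := Pool.Agent.L0h72.WT.t_RES F 1 _ s (fun t => q (E (Sum.inr t))) (by simp) h2
  refine ⟨_, ?_, h3⟩
  rw [eval_left, eval_rename]
  have h4 : Sum.elim (q ∘ i) (fun t => q (E (Sum.inr t))) ∘ E.symm = q := by
    funext t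
    obtain ⟨x, rfl⟩ := E.surjective t
    rw [Function.comp_apply, Equiv.symm_apply_apply]
    rcases x with x | x
    · rw [Sum.elim_inl, Function.comp_apply, hE1]
    · rw [Sum.elim_inr]
  rw [h4]
  exact hH

/-- Etale coordinates and units. -/
theorem good_coord {V : Type} [Fintype V] (φ : V → MvPolynomial V ℂ) {F F' u : MvPolynomial V ℂ}
    {p p' : V → ℂ} {Z : ℕ → RatFunc ℂ} (hφ : ∀ v, eval p (φ v) = p' v)
    (hdet : LinearIndependent ℂ fun v w : V => eval p (pderiv w (φ v)))
    (hu : eval p u ≠ 0) (h : aeval φ F' = u * F) (hF : Good F p Z) : Good F' p' Z := by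
  classical
  have hev : ∀ q : MvPolynomial V ℂ, eval p (aeval φ q : MvPolynomial V ℂ) = eval p' q := by
    intro q
    induction q using MvPolynomial.induction_on with
    | C a => simp
    | add f g hf hg => rw [map_add, map_add, map_add, hf, hg]
    | mul_X f i hf => rw [map_mul, map_mul, map_mul, hf, aeval_X, hφ, eval_X]
  have hune : u ≠ 0 := fun h0 => hu (by rw [h0, map_zero])
  have hne : (aeval φ F' : MvPolynomial V ℂ) ≠ 0 := by
    rw [h]
    exact mul_ne_zero hune hF.ne
  refine good_transfer hF (fun h0 => hne (by rw [h0, map_zero])) ?_ ?_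
  · rw [← hev, h, map_mul, hF.zero, mul_zero]
  · intro H s hH hE
    have hδ : eval p (Matrix.det (Matrix.of fun i k =>
        pderiv k ((aeval φ : MvPolynomial V ℂ →ₐ[ℂ] MvPolynomial V ℂ) (X i)))) ≠ 0 := by
      have h1 : eval p (Matrix.det (Matrix.of fun i k =>
          pderiv k ((aeval φ : MvPolynomial V ℂ →ₐ[ℂ] MvPolynomial V ℂ) (X i)))) =
          Matrix.det (Matrix.of fun i k => eval p (pderiv k (φ i))) := by
        rw [RingHom.map_det]
        congr 1
        ext i k
        simp
      rw [h1]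
      have h2 : LinearIndependent ℂ (Matrix.of fun i k => eval p (pderiv k (φ i))).row := hdet
      exact ((Matrix.isUnit_iff_isUnit_det _).mp
        (Matrix.linearIndependent_rows_iff_isUnit.mp h2)).ne_zero
    obtain ⟨n, hn⟩ := ev_etale (aeval φ : MvPolynomial V ℂ →ₐ[ℂ] MvPolynomial V ℂ) F' H s
      (fun h0 => hδ (by rw [h0, map_zero])) hne hE
    rw [h] at hn
    obtain ⟨m, hm⟩ := ev_unit F u _ s hF.ne hune hn
    refine ⟨_, ?_, hm⟩
    rw [map_mul, map_mul, map_pow, map_pow, hev]
    exact mul_ne_zero (pow_ne_zero _ hu) (mul_ne_zero (pow_ne_zero _ hδ) hH)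

end Pool.Agent.L0h17.WT
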