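import Pool.Agent.L0h17.WT.W
import Pool.Agent.W574.HS.Flat
import Pool.Agent.Y229.GL.Chg
import Pool.Agent.N103.V.Final

/-!
# Formal coordinates and units (board WT, author helper17)
-/

set_option autoImplicit false
set_option linter.all false

namespace Pool.Agent.L0h17.WT

open MvPolynomial Pool.Agent.N103.V Pool.Agent.N103 Pool.Agent.L0h28.WT
open Pool.Agent.Y229.GL (IsCoord jac jac_unit)

/-- The universal test data map to all test data (the proof is helper95's `t_UNI`). -/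
theorem exists_g {V : Type} (F : MvPolynomial V ℂ) (s : ℂ)
    (D₀ : V → Derivation ℂ (Localization.Away F) (Localization.Away F))
    (Gi₀ : Localization.Away F)
    (hD₀ : ∀ i p, D₀ i (algebraMap (MvPolynomial V ℂ) _ p) = algebraMap _ _ (pderiv i p))
    (hG₀ : algebraMap (MvPolynomial V ℂ) (Localization.Away F) F * Gi₀ = 1)
    {L : Type} [CommRing L] [Algebra ℂ L] (φ : MvPolynomial V ℂ →ₐ[ℂ] L)
    (D : V → Derivation ℂ L L) (Gi : L) (hD : ∀ i p, D i (φ p) = φ (pderiv i p))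
    (hG : φ F * Gi = 1) :
    ∃ g : Localization.Away F →ₐ[ℂ] L,
      (∀ p, g (algebraMap (MvPolynomial V ℂ) (Localization.Away F) p) = φ p) ∧
      ∀ i x, g (nab (IsScalarTower.toAlgHom ℂ (MvPolynomial V ℂ) (Localization.Away F)) D₀ F Gi₀ s i x)
        = nab φ D F Gi s i (g x) := by
  have hun : IsUnit (φ F) := ⟨⟨φ F, Gi, hG, by rw [mul_comm]; exact hG⟩, rfl⟩
  have hpow : ∀ y : Submonoid.powers F, IsUnit (φ (y : MvPolynomial V ℂ)) := by
    rintro ⟨y, n, rfl⟩
    show IsUnit (φ (F ^ n))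
    rw [map_pow]
    exact hun.pow n
  obtain ⟨g, hg⟩ : ∃ g : Localization.Away F →ₐ[ℂ] L,
      ∀ p, g (algebraMap (MvPolynomial V ℂ) (Localization.Away F) p) = φ p :=
    ⟨IsLocalization.liftAlgHom (M := Submonoid.powers F) (f := φ) hpow,
      fun p => IsLocalization.lift_eq _ p⟩
  have hder : ∀ (i : V) (x : Localization.Away F), g (D₀ i x) = D i (g x) := by
    intro i x
    obtain ⟨⟨h, ⟨_, n, rfl⟩⟩, hx⟩ := IsLocalization.surj (Submonoid.powers F) x
    have hx' : x * algebraMap (MvPolynomial V ℂ) (Localization.Away F) (F ^ n) =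
      algebraMap (MvPolynomial V ℂ) (Localization.Away F) h := hx
    have e1 := congrArg (fun z => g (D₀ i z)) hx'
    have e2 := congrArg (fun z => D i (g z)) hx'
    simp only [Derivation.leibniz, smul_eq_mul, map_add, map_mul, hD₀, hg, hD] at e1 e2
    have e3 : φ (F ^ n) * g (D₀ i x) = φ (F ^ n) * D i (g x) := by
      linear_combination e1 - e2
    exact (hpow ⟨F ^ n, n, rfl⟩).mul_left_cancel e3
  have hGi : g Gi₀ = Gi := by
    have e1 := congrArg g hG₀
    rw [map_mul, map_one, hg] at e1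
    linear_combination Gi * e1 - g Gi₀ * hG
  refine ⟨g, hg, ?_⟩
  intro i x
  rw [nab_apply, nab_apply, map_add, map_mul, map_mul, map_mul, hder, hder, hGi,
    AlgHom.commutes]
  have e1 : g ((IsScalarTower.toAlgHom ℂ (MvPolynomial V ℂ) (Localization.Away F)) F) = φ F :=
    hg F
  rw [e1]

/-- Formal coordinates and units. -/
theorem ev_formal {N : ℕ} {F' F H : MvPolynomial (Fin N) ℂ} {s : ℂ} (hF : F ≠ 0)
    {φ : Fin N → MvPowerSeries (Fin N) ℂ} {u : (MvPowerSeries (Fin N) ℂ)ˣ} (hφ : IsCoord φ)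
    (hφ0 : ∀ i, MvPowerSeries.constantCoeff (φ i) = 0)
    (h : MvPowerSeries.subst φ (F' : MvPowerSeries (Fin N) ℂ) = u * (F : MvPowerSeries (Fin N) ℂ))
    (hH : eval 0 H ≠ 0) (hE : Ev H F' s) :
    ∃ K : MvPolynomial (Fin N) ℂ, eval 0 K ≠ 0 ∧ Ev K F s := by
  classical
  rw [MvPowerSeries.subst_coe] at h
  -- the universal test data
  have hpow : Submonoid.powers F ≤ nonZeroDivisors (MvPolynomial (Fin N) ℂ) :=
    powers_le_nonZeroDivisors_of_noZeroDivisors hF
  have hinj : Function.Injective (algebraMap (MvPolynomial (Fin N) ℂ) (Localization.Away F)) :=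
    IsLocalization.injective _ hpow
  set jj := algebraMap (MvPolynomial (Fin N) ℂ) (Localization.Away F) with hjj
  have hder : ∀ i : Fin N, ∃ E : Derivation ℂ (Localization.Away F) (Localization.Away F),
      ∀ x, E (jj x) = jj (MvPolynomial.pderiv i x) := fun i =>
    exists_locDer (B := Localization.Away F) (Submonoid.powers F) (MvPolynomial.pderiv i)
  choose D₀ hD₀ using hder
  obtain ⟨Gi₀, hGi₀⟩ := (IsLocalization.Away.algebraMap_isUnit (S := Localization.Away F) F).exists_right_inv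
  set φ₀ : MvPolynomial (Fin N) ℂ →ₐ[ℂ] Localization.Away F :=
    IsScalarTower.toAlgHom ℂ (MvPolynomial (Fin N) ℂ) (Localization.Away F) with hφ₀
  have hφa : ∀ x, φ₀ x = jj x := fun x => rfl
  -- the smallest stable subspace
  set P : Submodule ℂ (Localization.Away F) → Prop := fun U₀ =>
    (∀ i, ∀ x ∈ U₀, φ₀ (X i) * x ∈ U₀) ∧ (∀ i, ∀ x ∈ U₀, nab φ₀ D₀ F Gi₀ s i x ∈ U₀) ∧
      φ₀ F ∈ U₀ ∧ (∀ i, φ₀ (pderiv i F) ∈ U₀) with hP
  set U₀ := sInf {U | P U} with hU₀
  have hPU : P U₀ := by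
    refine ⟨fun i x hx => ?_, fun i x hx => ?_, ?_, fun i => ?_⟩
    · rw [Submodule.mem_sInf] at hx ⊢
      exact fun W hW => hW.1 i x (hx W hW)
    · rw [Submodule.mem_sInf] at hx ⊢
      exact fun W hW => hW.2.1 i x (hx W hW)
    · rw [Submodule.mem_sInf]
      exact fun W hW => hW.2.2.1
    · rw [Submodule.mem_sInf]
      exact fun W hW => hW.2.2.2 i
  obtain ⟨p1, p2, p3, p4⟩ := hPU
  have pm : ∀ q : MvPolynomial (Fin N) ℂ, ∀ x ∈ U₀, jj q * x ∈ U₀ := fun q => mulU' (φ := φ₀) p1 q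
  -- the formal test data
  set Fh : MvPowerSeries (Fin N) ℂ := (F : MvPowerSeries (Fin N) ℂ) with hFh
  have hFhne : Fh ≠ 0 := by
    rw [hFh]
    intro h0
    exact hF (MvPolynomial.coe_injective (Fin N) ℂ (by rw [h0, MvPolynomial.coe_zero]))
  have hpow1 : Submonoid.powers Fh ≤ nonZeroDivisors (MvPowerSeries (Fin N) ℂ) :=
    powers_le_nonZeroDivisors_of_noZeroDivisors hFhne
  have hinj1 : Function.Injective (algebraMap (MvPowerSeries (Fin N) ℂ) (Localization.Away Fh)) :=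
    IsLocalization.injective _ hpow1
  set ι := algebraMap (MvPowerSeries (Fin N) ℂ) (Localization.Away Fh) with hι
  have hder1 : ∀ i : Fin N, ∃ E : Derivation ℂ (Localization.Away Fh) (Localization.Away Fh),
      ∀ x, E (ι x) = ι (MvPowerSeries.pderiv ℂ i x) := fun i =>
    exists_locDer (B := Localization.Away Fh) (Submonoid.powers Fh) (MvPowerSeries.pderiv ℂ i)
  choose D₁ hD₁ using hder1
  obtain ⟨Gi₁, hGi₁⟩ := (IsLocalization.Away.algebraMap_isUnit (S := Localization.Away Fh) Fh).exists_right_inv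
  set ιa : MvPowerSeries (Fin N) ℂ →ₐ[ℂ] Localization.Away Fh :=
    IsScalarTower.toAlgHom ℂ (MvPowerSeries (Fin N) ℂ) (Localization.Away Fh) with hιa
  set φ₁ : MvPolynomial (Fin N) ℂ →ₐ[ℂ] Localization.Away Fh :=
    ιa.comp (MvPolynomial.coeToMvPowerSeries.algHom ℂ) with hφ₁
  have hφ₁a : ∀ p : MvPolynomial (Fin N) ℂ, φ₁ p = ι (p : MvPowerSeries (Fin N) ℂ) := by
    intro p
    rw [hφ₁, AlgHom.comp_apply, MvPolynomial.coeToMvPowerSeries.algHom_apply]
    simp [hιa, hι]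
  have hD₁p : ∀ i p, D₁ i (φ₁ p) = φ₁ (pderiv i p) := by
    intro i p
    rw [hφ₁a, hD₁, hφ₁a, MvPowerSeries.pderiv_coe]
  have hG1 : φ₁ F * Gi₁ = 1 := by
    rw [hφ₁a]
    exact hGi₁
  obtain ⟨g, hg1, hg2⟩ := exists_g F s D₀ Gi₀ hD₀ hGi₀ φ₁ D₁ Gi₁ hD₁p hG1
  -- the coordinates
  set ψ : MvPolynomial (Fin N) ℂ →ₐ[ℂ] MvPowerSeries (Fin N) ℂ := aeval φ with hψ
  set Φ : MvPolynomial (Fin N) ℂ →ₐ[ℂ] Localization.Away Fh := ιa.comp ψ with hΦ
  have hΦa : ∀ p, Φ p = ι (ψ p) := fun p => rfl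
  have hJ := jac_unit hφ
  set c : Fin N → Fin N → MvPowerSeries (Fin N) ℂ := fun i k => (jac φ)⁻¹ k i with hc
  have hcδ : ∀ i j, ∑ k, c i k * MvPowerSeries.pderiv ℂ k (φ j) = if i = j then 1 else 0 := by
    intro i j
    have e1 : (jac φ * (jac φ)⁻¹) j i = (1 : Matrix (Fin N) (Fin N) (MvPowerSeries (Fin N) ℂ)) j i := by
      rw [Matrix.mul_nonsing_inv _ hJ]
    rw [Matrix.mul_apply, Matrix.one_apply] at e1
    rw [show (if i = j then (1 : MvPowerSeries (Fin N) ℂ) else 0) = if j = i then 1 else 0 by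
      by_cases hij : i = j
      · rw [if_pos hij, if_pos hij.symm]
      · rw [if_neg hij, if_neg (Ne.symm hij)], ← e1]
    refine Finset.sum_congr rfl fun k _ => ?_
    rw [mul_comm]
    rfl
  set D' : Fin N → Derivation ℂ (Localization.Away Fh) (Localization.Away Fh) :=
    fun i => ∑ k, ι (c i k) • D₁ k with hD'
  have hD'a : ∀ i x, D' i x = ∑ k, ι (c i k) * D₁ k x := by
    intro i x
    exact sum_der Finset.univ (fun k => ι (c i k) • D₁ k) x
  have hX : ∀ i j, D' i (Φ (X j)) = if i = j then 1 else 0 := by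
    intro i j
    rw [hD'a]
    have e1 : ∀ k, ι (c i k) * D₁ k (Φ (X j)) = ι (c i k * MvPowerSeries.pderiv ℂ k (φ j)) := by
      intro k
      rw [hΦa, hD₁, map_mul, hψ, aeval_X]
    rw [Finset.sum_congr rfl fun k _ => e1 k, ← map_sum, hcδ]
    by_cases hij : i = j
    · rw [if_pos hij, if_pos hij, map_one]
    · rw [if_neg hij, if_neg hij, map_zero]
  have hchain : ∀ i p, D' i (Φ p) = Φ (pderiv i p) := fun i p => der_chain Φ (D' i) (fun _ => 0) 0 i (hX i) p
  have hFΦ : Φ F' = ι u * ι Fh := by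
    rw [hΦa, h, map_mul]
  have huu : ι u * ι (u⁻¹ : (MvPowerSeries (Fin N) ℂ)ˣ) = 1 := by
    rw [← map_mul, Units.mul_inv, map_one]
  have hGi1' : ι Fh * Gi₁ = 1 := hGi₁
  have hG' : Φ F' * (ι (u⁻¹ : (MvPowerSeries (Fin N) ℂ)ˣ) * Gi₁) = 1 := by
    rw [hFΦ]
    linear_combination (ι Fh * Gi₁) * huu + hGi1'
  -- the subspace
  set T : Submodule (MvPowerSeries (Fin N) ℂ) (Localization.Away Fh) :=
    Submodule.span _ (g '' (U₀ : Set (Localization.Away F))) with hT
  have hsm : ∀ (a : MvPowerSeries (Fin N) ℂ) (x : Localization.Away Fh), x ∈ T → ι a * x ∈ T := by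
    intro a x hx
    have := T.smul_mem a hx
    rwa [Algebra.smul_def] at this
  have hgT : ∀ v ∈ U₀, g v ∈ T := fun v hv => Submodule.subset_span ⟨v, hv, rfl⟩
  have hnabT : ∀ k, ∀ x ∈ T, nab φ₁ D₁ F Gi₁ s k x ∈ T := by
    intro k x hx
    induction hx using Submodule.span_induction with
    | mem x hx =>
      obtain ⟨v, hv, rfl⟩ := hx
      rw [← hg2]
      exact hgT _ (p2 k v hv)
    | zero => rw [map_zero]; exact T.zero_mem
    | add x y _ _ hx hy => rw [map_add]; exact T.add_mem hx hy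
    | smul a x hx0 hx =>
      have e1 : nab φ₁ D₁ F Gi₁ s k (a • x) =
          ι (MvPowerSeries.pderiv ℂ k a) * x + ι a * nab φ₁ D₁ F Gi₁ s k x := by
        rw [nab_apply, nab_apply, Algebra.smul_def, Derivation.leibniz, smul_eq_mul, smul_eq_mul, hD₁]
        ring
      rw [e1]
      exact T.add_mem (hsm _ _ hx0) (hsm _ _ hx)
  set U₁ : Submodule ℂ (Localization.Away Fh) := T.restrictScalars ℂ with hU₁
  have hmU : ∀ x, x ∈ U₁ ↔ x ∈ T := fun x => Iff.rfl
  have hFT : ι Fh ∈ T := by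
    have e1 : g (jj F) = ι Fh := by rw [hg1, hφ₁a]
    rw [← e1]
    exact hgT _ p3
  have hdT : ∀ k, D₁ k (ι Fh) ∈ T := by
    intro k
    have e1 : g (jj (pderiv k F)) = D₁ k (ι Fh) := by
      rw [hg1, ← hD₁p, hφ₁a]
    rw [← e1]
    exact hgT _ (p4 k)
  have hmem := hE (Localization.Away Fh) Φ D' (ι (u⁻¹ : (MvPowerSeries (Fin N) ℂ)ˣ) * Gi₁) hchain hG' U₁
    (by
      intro i x hx
      rw [hmU] at hx ⊢
      rw [hΦa]
      exact hsm _ _ hx)
    (by
      intro i x hx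
      rw [hmU] at hx ⊢
      have e1 : nab Φ D' F' (ι (u⁻¹ : (MvPowerSeries (Fin N) ℂ)ˣ) * Gi₁) s i x =
          ∑ k, (ι (c i k) * nab φ₁ D₁ F Gi₁ s k x + ι (algebraMap ℂ (MvPowerSeries (Fin N) ℂ) s *
            (c i k * MvPowerSeries.pderiv ℂ k (u : MvPowerSeries (Fin N) ℂ) *
              (u⁻¹ : (MvPowerSeries (Fin N) ℂ)ˣ))) * x) := by
        have h2 : ι (algebraMap ℂ (MvPowerSeries (Fin N) ℂ) s) =
            algebraMap ℂ (Localization.Away Fh) s := ιa.commutes s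
        rw [nab_apply, hD'a, hD'a, Finset.sum_mul, Finset.mul_sum, Finset.sum_mul, ← Finset.sum_add_distrib]
        refine Finset.sum_congr rfl fun k _ => ?_
        rw [nab_apply, hφ₁a, hFΦ, Derivation.leibniz, smul_eq_mul, smul_eq_mul, hD₁ k (u : MvPowerSeries (Fin N) ℂ),
          map_mul, map_mul, map_mul, h2]
        linear_combination (algebraMap ℂ (Localization.Away Fh) s * ι (c i k) * D₁ k (ι Fh) * Gi₁ * x) * huu
          + (algebraMap ℂ (Localization.Away Fh) s * ι (c i k) *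
            ι (MvPowerSeries.pderiv ℂ k (u : MvPowerSeries (Fin N) ℂ)) *
              ι (u⁻¹ : (MvPowerSeries (Fin N) ℂ)ˣ) * x) * hGi1'
      rw [e1]
      exact T.sum_mem fun k _ => T.add_mem (hsm _ _ (hnabT k x hx)) (hsm _ _ hx))
    (by
      rw [hmU, hFΦ]
      exact hsm _ _ hFT)
    (by
      intro i
      rw [hmU, ← hchain, hD'a]
      refine T.sum_mem fun k _ => hsm _ _ ?_
      rw [hFΦ, Derivation.leibniz, smul_eq_mul, smul_eq_mul, hD₁ k (u : MvPowerSeries (Fin N) ℂ)]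
      refine T.add_mem (hsm _ _ (hdT k)) ?_
      rw [mul_comm]
      exact hsm _ _ hFT)
  -- `1` is in the module
  have hcc : MvPowerSeries.constantCoeff (ψ H) = eval 0 H := by
    have e1 : ((MvPowerSeries.constantCoeff (σ := Fin N) (R := ℂ)).comp (ψ : MvPolynomial (Fin N) ℂ →+* _)) =
        (eval (0 : Fin N → ℂ)) := by
      refine MvPolynomial.ringHom_ext (fun a => ?_) fun i => ?_
      · simp [hψ, MvPowerSeries.algebraMap_apply]
      · simp [hψ, hφ0]
    exact congrArg (fun q => q H) e1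
  have hun : IsUnit (ψ H) := by
    rw [MvPowerSeries.isUnit_iff_constantCoeff, hcc]
    exact isUnit_iff_ne_zero.2 hH
  obtain ⟨w, hw⟩ := hun
  have hone : (1 : Localization.Away Fh) ∈ T := by
    have e1 : ι (w⁻¹ : (MvPowerSeries (Fin N) ℂ)ˣ) * Φ H = 1 := by
      rw [hΦa, ← hw, ← map_mul, Units.inv_mul, map_one]
    rw [← e1]
    exact hsm _ _ hmem
  rw [hT, Submodule.mem_span_set'] at hone
  obtain ⟨n, a, y, hy⟩ := hone
  have hy2 : ∀ i, ∃ v ∈ U₀, g v = (y i : Localization.Away Fh) := fun i => (y i).2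
  choose v hv hgv using hy2
  have hden : ∀ i, ∃ (b : MvPolynomial (Fin N) ℂ) (m : ℕ), v i * jj (F ^ m) = jj b := by
    intro i
    obtain ⟨⟨b, ⟨_, m, rfl⟩⟩, hx⟩ := IsLocalization.surj (Submonoid.powers F) (v i)
    exact ⟨b, m, hx⟩
  choose b m hbm using hden
  set M := ∑ i, m i with hM
  have hmM : ∀ i, m i ≤ M := fun i => Finset.single_le_sum (fun _ _ => Nat.zero_le _) (Finset.mem_univ i)
  set B : Fin n → MvPolynomial (Fin N) ℂ := fun i => F ^ (M - m i) * b i with hB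
  have hvB : ∀ i, v i * jj (F ^ M) = jj (B i) := by
    intro i
    have e1 : F ^ M = F ^ (M - m i) * F ^ m i := by
      rw [← pow_add, Nat.sub_add_cancel (hmM i)]
    rw [e1, hB, map_mul, map_mul, ← hbm i]
    ring
  have hser : ((F ^ M : MvPolynomial (Fin N) ℂ) : MvPowerSeries (Fin N) ℂ) =
      ∑ i, a i * (B i : MvPowerSeries (Fin N) ℂ) := by
    apply hinj1
    have e1 : ∀ i, ι (B i : MvPowerSeries (Fin N) ℂ) =
        (y i : Localization.Away Fh) * ι ((F ^ M : MvPolynomial (Fin N) ℂ) : MvPowerSeries (Fin N) ℂ) := by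
      intro i
      rw [← hφ₁a, ← hφ₁a, ← hg1, ← hg1, ← hvB i, map_mul, hgv]
    have e2 : ι (∑ i, a i * (B i : MvPowerSeries (Fin N) ℂ)) =
        (∑ i, a i • (y i : Localization.Away Fh)) *
          ι ((F ^ M : MvPolynomial (Fin N) ℂ) : MvPowerSeries (Fin N) ℂ) := by
      rw [map_sum, Finset.sum_mul]
      refine Finset.sum_congr rfl fun i _ => ?_
      rw [map_mul, e1, Algebra.smul_def, mul_assoc]
    rw [e2, hy, one_mul]
  obtain ⟨K, cK, hK, hK2⟩ := Pool.Agent.W574.HS.flat (D := 1) (fun _ => F ^ M) (fun i _ => B i) a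
    (fun _ => hser)
  refine ⟨K, by rwa [MvPolynomial.eval_zero], ?_⟩
  have hKU : jj K ∈ U₀ := by
    have hu : IsUnit (jj (F ^ M)) := by
      rw [map_pow]
      exact (IsLocalization.Away.algebraMap_isUnit (S := Localization.Away F) F).pow M
    have e1 : jj K = ∑ i, jj (cK i) * v i := by
      refine hu.mul_right_cancel ?_
      rw [← map_mul, hK2 0, map_sum, Finset.sum_mul]
      refine Finset.sum_congr rfl fun i _ => ?_
      rw [map_mul, ← hvB i, mul_assoc]
    rw [e1]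
    exact U₀.sum_mem fun i _ => pm _ _ (hv i)
  refine Pool.Agent.L0h95.WT.t_UNI F K s hF D₀ Gi₀ hD₀ hGi₀ ?_
  intro U g1 g2 g3 g4
  have h5 : U₀ ≤ U := sInf_le ⟨g1, g2, g3, g4⟩
  exact h5 hKU

end Pool.Agent.L0h17.WT
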