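import Pool.Agent.L0h17.WT.X

/-!
# Formal coordinates, assembly (board WT, author helper17)
-/

set_option autoImplicit false
set_option linter.all false

namespace Pool.Agent.L0h17.WT

open MvPolynomial Pool.Agent.N103.V Pool.Agent.N103
open Pool.Agent.Y229.GL (IsCoord)
open Pool.Agent.Y229.RE (trans)

/-- translation -/
noncomputable def tr {σ : Type} (q : σ → ℂ) (f : MvPolynomial σ ℂ) : MvPolynomial σ ℂ :=
  aeval (fun i => C (q i) + X i) f

theorem tr_tr {σ : Type} (q r : σ → ℂ) (h : q + r = 0) (f : MvPolynomial σ ℂ) :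
    tr q (tr r f) = f := by
  unfold tr
  induction f using MvPolynomial.induction_on with
  | C a => simp
  | add f g hf hg => rw [map_add, map_add, hf, hg]
  | mul_X f i hf =>
    rw [map_mul, map_mul, hf, aeval_X, map_add, aeval_X]
    have h1 : q i + r i = 0 := congrFun h i
    have h2 : (aeval (fun i => C (q i) + X i) (C (r i)) : MvPolynomial σ ℂ) = C (r i) := by simp
    rw [h2, ← add_assoc, ← C_add, add_comm (r i), h1, C_0, zero_add]

theorem eval_tr {σ : Type} (q : σ → ℂ) (f : MvPolynomial σ ℂ) (x : σ → ℂ) :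
    eval x (tr q f) = eval (q + x) f := by
  unfold tr
  induction f using MvPolynomial.induction_on with
  | C a => simp
  | add f g hf hg => rw [map_add, map_add, map_add, hf, hg]
  | mul_X f i hf => rw [map_mul, map_mul, map_mul, hf, aeval_X]; simp

theorem pderiv_tr {σ : Type} (q : σ → ℂ) (i : σ) (f : MvPolynomial σ ℂ) :
    pderiv i (tr q f) = tr q (pderiv i f) := by
  classical
  unfold tr
  induction f using MvPolynomial.induction_on with
  | C a => simp
  | add f g hf hg => rw [map_add, map_add, map_add, map_add, hf, hg]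
  | mul_X f j hf =>
    rw [map_mul, Derivation.leibniz, hf, Derivation.leibniz, aeval_X]
    simp only [smul_eq_mul, map_add, map_mul, aeval_X, pderiv_C, zero_add, pderiv_X]
    congr 2
    by_cases hij : j = i
    · subst hij; simp
    · simp [Pi.single_apply, hij, Ne.symm hij]

theorem ev_tr {σ : Type} (q r : σ → ℂ) (hqr : r + q = 0) {F K : MvPolynomial σ ℂ} {s : ℂ}
    (hE : Ev K (tr q F) s) : Ev (tr r K) F s := by
  intro L _ _ φ D Gi hD hG U h1 h2 h3 h4
  have hrq : ∀ p : MvPolynomial σ ℂ, tr r (tr q p) = p := fun p => tr_tr r q hqr p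
  let τ : MvPolynomial σ ℂ →ₐ[ℂ] MvPolynomial σ ℂ := aeval (fun i => C (r i) + X i)
  have hτ : ∀ p, τ p = tr r p := fun p => rfl
  refine hE L (φ.comp τ) D Gi ?_ ?_ U ?_ ?_ ?_ ?_
  · intro i p
    show D i (φ (tr r p)) = φ (tr r (pderiv i p))
    rw [hD, pderiv_tr]
  · show φ (tr r (tr q F)) * Gi = 1
    rw [hrq, hG]
  · intro i x hx
    show φ (tr r (X i)) * x ∈ U
    exact Pool.Agent.L0h28.WT.mulU' h1 _ x hx
  · intro i x hx
    have h5 := h2 i x hx
    rw [nab_apply] at h5 ⊢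
    show D i x + algebraMap ℂ L s * (D i (φ (tr r (tr q F))) * Gi) * x ∈ U
    rw [hrq]
    exact h5
  · show φ (tr r (tr q F)) ∈ U
    rw [hrq]
    exact h3
  · intro i
    show φ (tr r (pderiv i (tr q F))) ∈ U
    rw [pderiv_tr, hrq]
    exact h4 i

theorem ev_becomes {N : ℕ} {σ : Type} {F' : MvPolynomial (Fin N) ℂ} {F : MvPolynomial σ ℂ}
    (hF : F ≠ 0) (hf : BecomesAt (F' : MvPowerSeries (Fin N) ℂ) F) {H : MvPolynomial (Fin N) ℂ}
    {s : ℂ} (hH : eval 0 H ≠ 0) (hE : Ev H F' s) :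
    ∃ K : MvPolynomial σ ℂ, eval 0 K ≠ 0 ∧ Ev K F s := by
  obtain ⟨ε, φ, u, hφ, hφ0, hu, h3⟩ := hf
  obtain ⟨u, rfl⟩ := hu
  have hne : rename ε F ≠ 0 := fun h => hF (rename_injective ε ε.injective (by rw [h, map_zero]))
  obtain ⟨K, hK, hE'⟩ := ev_formal hne hφ hφ0 h3 hH hE
  refine ⟨rename ε.symm K, ?_, ev_rename ε hE'⟩
  rw [eval_rename]
  exact hK

theorem cc_aeval {N : ℕ} {φ : Fin N → MvPowerSeries (Fin N) ℂ}
    (hφ0 : ∀ i, MvPowerSeries.constantCoeff (φ i) = 0) (H : MvPolynomial (Fin N) ℂ) :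
    MvPowerSeries.constantCoeff (aeval φ H) = eval 0 H := by
  have e1 : ((MvPowerSeries.constantCoeff (σ := Fin N) (R := ℂ)).comp
      ((aeval φ : MvPolynomial (Fin N) ℂ →ₐ[ℂ] MvPowerSeries (Fin N) ℂ) :
        MvPolynomial (Fin N) ℂ →+* MvPowerSeries (Fin N) ℂ)) = (eval (0 : Fin N → ℂ)) := by
    refine MvPolynomial.ringHom_ext (fun a => ?_) fun i => ?_
    · simp [MvPowerSeries.algebraMap_apply]
    · simp [hφ0]
  exact congrArg (fun q => q H) e1

theorem becomes_zero {N : ℕ} {σ : Type} {F' : MvPolynomial (Fin N) ℂ} {F : MvPolynomial σ ℂ}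
    (hf : BecomesAt (F' : MvPowerSeries (Fin N) ℂ) F) (h0 : eval 0 F = 0) : eval 0 F' = 0 := by
  obtain ⟨ε, φ, u, hφ, hφ0, hu, h3⟩ := hf
  rw [MvPowerSeries.subst_coe] at h3
  rw [← cc_aeval hφ0, h3, map_mul]
  have h1 : MvPowerSeries.constantCoeff ((rename ε F : MvPolynomial (Fin N) ℂ) :
      MvPowerSeries (Fin N) ℂ) = eval 0 (rename ε F) := by
    rw [MvPolynomial.eval_zero, ← MvPowerSeries.coeff_zero_eq_constantCoeff_apply,
      MvPolynomial.coeff_coe, MvPolynomial.constantCoeff_eq]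
  rw [h1, eval_rename]
  have h2 : ((0 : Fin N → ℂ) ∘ ε) = 0 := rfl
  rw [h2, h0, mul_zero]

theorem becomes_ne {N : ℕ} {σ : Type} {F' : MvPolynomial (Fin N) ℂ} {F : MvPolynomial σ ℂ}
    (hf : BecomesAt (F' : MvPowerSeries (Fin N) ℂ) F) (hF : F ≠ 0) : F' ≠ 0 := by
  rintro rfl
  obtain ⟨ε, φ, u, hφ, hφ0, hu, h3⟩ := hf
  rw [MvPowerSeries.subst_coe, map_zero] at h3
  have h1 := (hu.mul_right_eq_zero).1 h3.symm
  have h2 : (rename ε F : MvPolynomial (Fin N) ℂ) = 0 :=
    MvPolynomial.coe_injective (Fin N) ℂ (by rw [h1, MvPolynomial.coe_zero])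
  exact hF (rename_injective ε ε.injective (by rw [h2, map_zero]))

/-- **Formal coordinates and units.** -/
theorem good_formal {N : ℕ} {σ : Type} {F' : MvPolynomial (Fin N) ℂ} {p : Fin N → ℂ}
    {F : MvPolynomial σ ℂ} {q : σ → ℂ} {Z : ℕ → RatFunc ℂ}
    (hf : BecomesAt (trans p F' : MvPowerSeries (Fin N) ℂ)
      (aeval (fun i => C (q i) + X i) F : MvPolynomial σ ℂ))
    (hG : Good F q Z) : Good F' p Z := by
  have ht : ∀ f : MvPolynomial (Fin N) ℂ, trans p f = tr p f := fun f => rfl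
  have hf' : BecomesAt (tr p F' : MvPowerSeries (Fin N) ℂ) (tr q F) := hf
  have hne : tr q F ≠ 0 := by
    intro h0
    apply hG.ne
    rw [← tr_tr (-q) q (by simp) F, h0]
    unfold tr
    rw [map_zero]
  refine good_transfer hG ?_ ?_ ?_
  · intro h0
    apply becomes_ne hf' hne
    rw [h0]
    unfold tr
    rw [map_zero]
  · have h1 := becomes_zero hf' (by rw [eval_tr, add_zero]; exact hG.zero)
    rwa [eval_tr, add_zero] at h1
  · intro H s hH hE
    have h1 : Ev (tr p H) (tr p F') s := by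
      refine ev_tr (-p) p (by simp) ?_
      rw [tr_tr (-p) p (by simp)]
      exact hE
    obtain ⟨K, hK, hE'⟩ := ev_becomes hne hf' (by rw [eval_tr, add_zero]; exact hH) h1
    refine ⟨tr (-q) K, ?_, ev_tr q (-q) (by simp) hE'⟩
    rw [eval_tr]
    simpa using hK

end Pool.Agent.L0h17.WT
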