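import Pool.Agent.L0h17.WT.Y
import Pool.Agent.L0h6.WT.Core

/-!
# Formal components (board WT, author helper17; the proofs are helper6's, `Pool/Agent/L0h6/WT/Core.lean`)
-/

set_option autoImplicit false
set_option linter.all false

namespace Pool.Agent.L0h17.WT.FC

open MvPolynomial Pool.Agent.N103.V Pool.Agent.N103
open Pool.Agent.L0h6.WT (pri_id cro_id)

variable {V A : Type} [CommRing A] [IsDomain A] [Algebra ℂ A] {d : V → Derivation ℂ A A}

/-- the localization at the powers of an element -/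
theorem exL (d : V → Derivation ℂ A A) (F : A) (hF : F ≠ 0) :
    ∃ (L : Type) (_ : CommRing L) (_ : Algebra ℂ L) (φ : A →ₐ[ℂ] L)
      (D : V → Derivation ℂ L L) (Gi : L), (∀ i p, D i (φ p) = φ (d i p)) ∧ φ F * Gi = 1 ∧
      Function.Injective φ := by
  classical
  have hM : Submonoid.powers F ≤ nonZeroDivisors A :=
    powers_le_nonZeroDivisors_of_noZeroDivisors hF
  have hinj : Function.Injective (algebraMap A (Localization.Away F)) :=
    IsLocalization.injective _ hM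
  have hder : ∀ i : V, ∃ E : Derivation ℂ (Localization.Away F)
      (Localization.Away F), ∀ x, E (algebraMap A (Localization.Away F) x) =
        algebraMap A (Localization.Away F) (d i x) := fun i =>
    exists_locDer (B := Localization.Away F) (Submonoid.powers F) (d i)
  choose D hD using hder
  obtain ⟨Gi, hGi⟩ := (IsLocalization.Away.algebraMap_isUnit (S := Localization.Away F) F).exists_right_inv
  exact ⟨Localization.Away F, inferInstance, inferInstance,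
    IsScalarTower.toAlgHom ℂ A (Localization.Away F), D, Gi, fun i x => hD i x, hGi, hinj⟩

theorem pd_pow (i : V) (k : ℕ) (G : A) :
    G * d i (G ^ k) = (k : A) * G ^ k * d i G := by
  rcases k with _ | k
  · simp
  · rw [Derivation.leibniz_pow, Nat.add_sub_cancel, smul_eq_mul, nsmul_eq_mul]
    ring

section U

variable {L : Type} [CommRing L] [Algebra ℂ L] (φ : A →ₐ[ℂ] L)

theorem phiC (z : ℂ) : φ (algebraMap ℂ A z) = algebraMap ℂ L z := φ.commutes z

/-- the elements `q n / G ^ k` -/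
def Uq (q G : A) : Submodule ℂ L where
  carrier := {x | ∃ (k : ℕ) (n : A), φ G ^ k * x = φ q * φ n}
  add_mem' := by
    rintro x y ⟨k1, n1, h1⟩ ⟨k2, n2, h2⟩
    refine ⟨k1 + k2, n1 * G ^ k2 + n2 * G ^ k1, ?_⟩
    rw [map_add, map_mul, map_mul, map_pow, map_pow]
    linear_combination φ G ^ k2 * h1 + φ G ^ k1 * h2
  zero_mem' := ⟨0, 0, by rw [map_zero, mul_zero, mul_zero]⟩
  smul_mem' := by
    rintro z x ⟨k, n, h⟩
    refine ⟨k, algebraMap ℂ A z * n, ?_⟩
    rw [Algebra.smul_def, map_mul, ← phiC φ z]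
    linear_combination φ (algebraMap ℂ A z) * h

theorem mem_Uq {q G : A} {x : L} :
    x ∈ Uq φ q G ↔ ∃ (k : ℕ) (n : A), φ G ^ k * x = φ q * φ n := Iff.rfl

/-- the elements `F (u / q ^ k + v / R ^ k)` -/
def Ur (q R F : A) : Submodule ℂ L where
  carrier := {x | ∃ (k : ℕ) (u v : A), φ q ^ k * φ R ^ k * x =
    φ F * (φ u * φ R ^ k + φ v * φ q ^ k)}
  add_mem' := by
    rintro x y ⟨k1, u1, v1, h1⟩ ⟨k2, u2, v2, h2⟩
    refine ⟨k1 + k2, u1 * q ^ k2 + u2 * q ^ k1, v1 * R ^ k2 + v2 * R ^ k1, ?_⟩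
    rw [map_add, map_add, map_mul, map_mul, map_mul, map_mul, map_pow, map_pow, map_pow, map_pow]
    linear_combination (φ q ^ k2 * φ R ^ k2) * h1 + (φ q ^ k1 * φ R ^ k1) * h2
  zero_mem' := ⟨0, 0, 0, by rw [map_zero, mul_zero, zero_mul, zero_mul, add_zero, mul_zero]⟩
  smul_mem' := by
    rintro z x ⟨k, u, v, h⟩
    refine ⟨k, algebraMap ℂ A z * u, algebraMap ℂ A z * v, ?_⟩
    rw [Algebra.smul_def, map_mul, map_mul, ← phiC φ z]
    linear_combination φ (algebraMap ℂ A z) * h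

theorem mem_Ur {q R F : A} {x : L} :
    x ∈ Ur φ q R F ↔ ∃ (k : ℕ) (u v : A), φ q ^ k * φ R ^ k * x =
    φ F * (φ u * φ R ^ k + φ v * φ q ^ k) := Iff.rfl

variable {φ} {D : V → Derivation ℂ L L} {Gi : L} (hD : ∀ i p, D i (φ p) = φ (d i p))

include hD in
theorem nab_Uq {q G : A} {m : ℕ} (hGi : φ (q ^ (m + 2) * G) * Gi = 1) {s : ℂ}
    (hsm : algebraMap ℂ L s * ((m + 2 : ℕ) : L) = -1) (i : V) {x : L} (hx : x ∈ Uq φ q G) :
    D i x + algebraMap ℂ L s * (D i (φ (q ^ (m + 2) * G)) * Gi) * x ∈ Uq φ q G := by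
  obtain ⟨k, n, h⟩ := (mem_Uq φ).1 hx
  refine (mem_Uq φ).2 ⟨k + 1, G * d i n + (algebraMap ℂ A s - (k : A)) * n * d i G, ?_⟩
  have e2 := congrArg (D i) h
  rw [Derivation.leibniz, Derivation.leibniz, smul_eq_mul, smul_eq_mul, smul_eq_mul, smul_eq_mul,
    ← map_pow, hD, hD, hD, map_pow] at e2
  have e3 : φ G * φ (d i (G ^ k)) = (k : L) * φ G ^ k * φ (d i G) := by
    rw [← map_mul, pd_pow, map_mul, map_mul, map_natCast, map_pow φ]
  have e5 : D i (φ (q ^ (m + 2) * G)) = ((m + 2 : ℕ) : L) * φ q ^ (m + 1) *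
      φ (d i q) * φ G + φ q ^ (m + 2) * φ (d i G) := by
    rw [hD, Derivation.leibniz, Derivation.leibniz_pow, smul_eq_mul, smul_eq_mul, smul_eq_mul,
      nsmul_eq_mul, map_add, map_mul, map_mul, map_mul, map_mul, map_natCast, map_pow, map_pow]
    have : m + 2 - 1 = m + 1 := by omega
    rw [this]
    ring
  rw [e5, map_add, map_mul, map_mul, map_mul, map_sub, map_natCast,
    phiC φ s]
  rw [map_mul, map_pow] at hGi
  exact pri_id _ _ _ _ _ _ _ _ _ _ _ _ _ h e2 e3 hGi hsm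

include hD in
theorem nab_Ur {q R : A} {a : ℕ} (hGi : φ (q ^ (a + 1) * R) * Gi = 1)
    (i : V) {x : L} (hx : x ∈ Ur φ q R (q ^ (a + 1) * R)) :
    D i x + algebraMap ℂ L (-1) * (D i (φ (q ^ (a + 1) * R)) * Gi) * x ∈ Ur φ q R (q ^ (a + 1) * R) := by
  obtain ⟨k, u, v, h⟩ := (mem_Ur φ).1 hx
  refine (mem_Ur φ).2 ⟨k + 1, q * d i u - (k : A) * u * d i q,
        R * d i v - (k : A) * v * d i R, ?_⟩
  have hF : φ (q ^ (a + 1) * R) = φ q ^ (a + 1) * φ R := by rw [map_mul, map_pow]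
  have e2 := congrArg (D i) h
  have e5 : D i (φ q ^ k * φ R ^ k * x) = φ q ^ k * φ R ^ k * D i x + x * (φ q ^ k * φ (d i (R ^ k)) +
      φ R ^ k * φ (d i (q ^ k))) := by
    rw [Derivation.leibniz, Derivation.leibniz, smul_eq_mul, smul_eq_mul, smul_eq_mul, smul_eq_mul,
      ← map_pow, ← map_pow, hD, hD]
  have e6 : D i (φ (q ^ (a + 1) * R) * (φ u * φ R ^ k + φ v * φ q ^ k)) =
      D i (φ (q ^ (a + 1) * R)) * (φ u * φ R ^ k + φ v * φ q ^ k) +
      φ q ^ (a + 1) * φ R * (φ (d i u) * φ R ^ k + φ u * φ (d i (R ^ k)) +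
        φ (d i v) * φ q ^ k + φ v * φ (d i (q ^ k))) := by
    rw [Derivation.leibniz, map_add, Derivation.leibniz, Derivation.leibniz, ← map_pow, ← map_pow,
      hD i u, hD i (R ^ k), hD i v, hD i (q ^ k), map_pow φ, map_pow φ, hF]
    simp only [smul_eq_mul]
    ring
  rw [e5, e6] at e2
  have e3 : φ q * φ (d i (q ^ k)) = (k : L) * φ q ^ k * φ (d i q) := by
    rw [← map_mul, pd_pow, map_mul, map_mul, map_natCast, map_pow φ]
  have e3' : φ R * φ (d i (R ^ k)) = (k : L) * φ R ^ k * φ (d i R) := by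
    rw [← map_mul, pd_pow, map_mul, map_mul, map_natCast, map_pow φ]
  have hs : algebraMap ℂ L (-1) = -1 := by rw [map_neg, map_one]
  rw [hF] at h hGi
  obtain ⟨F', hF'⟩ : ∃ F', F' = D i (φ (q ^ (a + 1) * R)) := ⟨_, rfl⟩
  rw [← hF'] at e2
  rw [hs, ← hF', hF]
  simp only [map_sub, map_mul, map_natCast]
  exact cro_id _ _ _ _ _ _ _ _ _ _ _ _ _ _ _ _ h e2 e3 e3' hGi

end U


/-- the final step -/
theorem cro_end {q R H u v : A} {a k : ℕ} (hq : Prime q)
    (hqR : ¬ q ∣ R) (hR0 : R ≠ 0) 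
    (h9 : q ^ k * R ^ k * H = q ^ (a + 1) * R * (u * R ^ k + v * q ^ k)) :
    ∃ c' u', H = q ^ (a + 1) * c' + u' * R := by
  have hc : q ^ (a + 1) * R ≠ 0 := mul_ne_zero (pow_ne_zero _ hq.ne_zero) hR0
  have h10 : q ^ k * R ^ (k + a) * H =
      u * q ^ (a + 1) * R ^ (k + a + 1) + v * R ^ (a + 1) * q ^ (k + a + 1) := by
    apply mul_left_cancel₀ hc
    have : q ^ (a + 1) * R * (q ^ k * R ^ (k + a) * H) = q ^ (a + 1) * R ^ (a + 1) * (q ^ k * R ^ k * H) := by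
      ring
    rw [this, h9]
    ring
  have h11 : q ^ k ∣ R ^ (k + a + 1) * (u * q ^ (a + 1)) := by
    refine ⟨R ^ (k + a) * H - v * R ^ (a + 1) * q ^ (a + 1), ?_⟩
    linear_combination -h10
  obtain ⟨u', hu'⟩ := hq.pow_dvd_of_dvd_mul_left _ (fun h => hqR (hq.dvd_of_dvd_pow h)) h11
  have h12 : R ^ (k + a) * (H - u' * R) = v * R ^ (a + 1) * q ^ (a + 1) := by
    apply mul_left_cancel₀ (pow_ne_zero k hq.ne_zero)
    rw [hu'] at h10
    linear_combination h10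
  have h13 : q ^ (a + 1) ∣ R ^ (k + a) * (H - u' * R) := ⟨v * R ^ (a + 1), by rw [h12]; ring⟩
  obtain ⟨c', hc'⟩ := hq.pow_dvd_of_dvd_mul_left _ (fun h => hqR (hq.dvd_of_dvd_pow h)) h13
  exact ⟨c', u', by linear_combination hc'⟩

/-- PRI for an extension `c` of the polynomial ring. -/
theorem pri (c : MvPolynomial V ℂ →ₐ[ℂ] A) (hd : ∀ i p, d i (c p) = c (pderiv i p))
    (F H : MvPolynomial V ℂ) (q G : A) (m : ℕ) (hFq : c F = q ^ m * G) (hm : 2 ≤ m)
    (hq : Prime q) (hqG : ¬ q ∣ G) (hH : ¬ q ∣ c H) : ¬ Ev H F (-1 / (m : ℂ)) := by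
  intro hE
  have hG0 : G ≠ 0 := by
    rintro rfl
    exact hqG (dvd_zero q)
  have hF0 : q ^ m * G ≠ 0 := mul_ne_zero (pow_ne_zero _ hq.ne_zero) hG0
  obtain ⟨L, i1, i2, φ, D, Gi, hD, hGi, hinj⟩ := exL d _ hF0
  obtain ⟨m, rfl⟩ : ∃ k, m = k + 2 := ⟨m - 2, by omega⟩
  have hkc : ((m + 2 : ℕ) : ℂ) ≠ 0 := Nat.cast_ne_zero.2 (by omega)
  obtain ⟨s, hs⟩ : ∃ s : ℂ, s = -1 / ((m + 2 : ℕ) : ℂ) := ⟨_, rfl⟩
  rw [← hs] at hE
  have hsm : algebraMap ℂ L s * ((m + 2 : ℕ) : L) = -1 := by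
    have h1 : ((m + 2 : ℕ) : L) = algebraMap ℂ L ((m + 2 : ℕ) : ℂ) := by rw [map_natCast]
    rw [h1, ← map_mul, hs, div_mul_cancel₀ _ hkc, map_neg, map_one]
  have hne : s ≠ -1 := by
    intro h0
    rw [hs, div_eq_iff hkc] at h0
    have h1 : ((m + 2 : ℕ) : ℂ) = 1 := by linear_combination h0
    have h2 : m + 2 = 1 := by exact_mod_cast h1
    omega
  have hFm : φ (q ^ (m + 2) * G) ∈ Uq φ q G := by
    refine (mem_Uq φ).2 ⟨0, q ^ (m + 1) * G, ?_⟩
    rw [map_mul, map_mul, map_pow, map_pow, pow_zero, one_mul]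
    ring
  have hφF : (φ.comp c) F = φ (q ^ (m + 2) * G) := by
    rw [AlgHom.comp_apply, hFq]
  have hmem := hE.mem (φ.comp c) D Gi
    (fun i p => by rw [AlgHom.comp_apply, AlgHom.comp_apply, hD, hd]) (by rw [hφF]; exact hGi) (Uq φ q G)
    (by
      intro i x hx
      obtain ⟨k, n, h⟩ := (mem_Uq φ).1 hx
      refine (mem_Uq φ).2 ⟨k, c (X i) * n, ?_⟩
      rw [map_mul, AlgHom.comp_apply]
      linear_combination φ (c (X i)) * h)
    (fun i x hx => by
      rw [nab_apply, hφF]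
      exact nab_Uq hD hGi hsm i hx) (by rw [hφF]; exact hFm) (Or.inl hne)
  obtain ⟨k, n, hn⟩ := (mem_Uq φ).1 hmem
  rw [AlgHom.comp_apply, ← map_pow, ← map_mul, ← map_mul] at hn
  have h9 := hinj hn
  have h10 : q ∣ G ^ k * c H := ⟨n, h9⟩
  rcases hq.dvd_or_dvd h10 with h11 | h11
  · exact hqG (hq.dvd_of_dvd_pow h11)
  · exact hH h11

/-- CRO for an extension `c` of the polynomial ring. -/
theorem cro (c : MvPolynomial V ℂ →ₐ[ℂ] A) (hd : ∀ i p, d i (c p) = c (pderiv i p))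
    (F H : MvPolynomial V ℂ) (q R : A) (a : ℕ) (hFq : c F = q ^ a * R) (ha : 1 ≤ a)
    (hq : Prime q) (hqR : ¬ q ∣ R) (hH : ∀ c' u', c H ≠ q * c' + u' * R) : ¬ Ev H F (-1) := by
  intro hE
  have hR0 : R ≠ 0 := by
    rintro rfl
    exact hqR (dvd_zero q)
  have hF0 : q ^ a * R ≠ 0 := mul_ne_zero (pow_ne_zero _ hq.ne_zero) hR0
  obtain ⟨L, i1, i2, φ, D, Gi, hD, hGi, hinj⟩ := exL d _ hF0
  obtain ⟨a, rfl⟩ : ∃ k, a = k + 1 := ⟨a - 1, by omega⟩
  have hFm : φ (q ^ (a + 1) * R) ∈ Ur φ q R (q ^ (a + 1) * R) := by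
    refine (mem_Ur φ).2 ⟨0, 1, 0, ?_⟩
    rw [map_one, map_zero, pow_zero, pow_zero, one_mul, one_mul, mul_one, add_zero, mul_one]
  have hdF : ∀ i, φ (d i (q ^ (a + 1) * R)) ∈ Ur φ q R (q ^ (a + 1) * R) := by
    intro i
    refine (mem_Ur φ).2 ⟨1, ((a + 1 : ℕ) : A) * d i q, d i R, ?_⟩
    rw [Derivation.leibniz, Derivation.leibniz_pow, Nat.add_sub_cancel, smul_eq_mul, smul_eq_mul,
        smul_eq_mul, nsmul_eq_mul, map_add, map_mul φ (q ^ (a + 1)), map_mul φ R, map_mul φ ((a + 1 : ℕ) : A),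
        map_mul φ (q ^ a), map_mul φ (q ^ (a + 1)) R, map_pow, map_pow, map_mul φ ((a + 1 : ℕ) : A), map_natCast]
    ring
  have hφF : (φ.comp c) F = φ (q ^ (a + 1) * R) := by
    rw [AlgHom.comp_apply, hFq]
  have hmem := hE.mem (φ.comp c) D Gi
    (fun i p => by rw [AlgHom.comp_apply, AlgHom.comp_apply, hD, hd]) (by rw [hφF]; exact hGi)
    (Ur φ q R (q ^ (a + 1) * R))
    (by
      intro i x hx
      obtain ⟨k, u, v, h⟩ := (mem_Ur φ).1 hx
      refine (mem_Ur φ).2 ⟨k, c (X i) * u, c (X i) * v, ?_⟩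
      rw [map_mul φ (c (X i)) u, map_mul φ (c (X i)) v, AlgHom.comp_apply]
      linear_combination φ (c (X i)) * h)
    (fun i x hx => by
      rw [nab_apply, hφF]
      exact nab_Ur hD hGi i hx) (by rw [hφF]; exact hFm)
    (Or.inr fun i => by
      rw [AlgHom.comp_apply, ← hd, hFq]
      exact hdF i)
  obtain ⟨k, u, v, hn⟩ := (mem_Ur φ).1 hmem
  rw [AlgHom.comp_apply, ← map_pow, ← map_pow, ← map_mul, ← map_mul, ← map_mul, ← map_mul, ← map_add, ← map_mul] at hn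
  obtain ⟨c', u', h⟩ := cro_end hq hqR hR0 (hinj hn)
  exact hH (q ^ a * c') u' (by rw [h]; ring)

end Pool.Agent.L0h17.WT.FC

namespace Pool.Agent.L0h17.WT

open MvPolynomial Pool.Agent.L0h21.SN Pool.Agent.L0h21.RW Pool.Agent.N103.V Pool.Agent.N103

/-- polynomials as power series -/
noncomputable def cps (n : ℕ) : MvPolynomial (Fin n) ℂ →ₐ[ℂ] MvPowerSeries (Fin n) ℂ :=
  MvPolynomial.coeToMvPowerSeries.algHom ℂ

theorem cps_apply {n : ℕ} (F : MvPolynomial (Fin n) ℂ) :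
    cps n F = (F : MvPowerSeries (Fin n) ℂ) := by
  rw [cps, MvPolynomial.coeToMvPowerSeries.algHom_apply]
  simp

theorem cc_cps {n : ℕ} (F : MvPolynomial (Fin n) ℂ) :
    MvPowerSeries.constantCoeff (cps n F) = eval 0 F := by
  rw [cps_apply, MvPolynomial.eval_zero, ← MvPowerSeries.coeff_zero_eq_constantCoeff_apply,
    MvPolynomial.coeff_coe, MvPolynomial.constantCoeff_eq]

theorem cc_prime {n : ℕ} {q : MvPowerSeries (Fin n) ℂ} (hq : Prime q) :
    MvPowerSeries.constantCoeff q = 0 := by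
  by_contra h
  exact hq.not_unit (MvPowerSeries.isUnit_iff_constantCoeff.2 (isUnit_iff_ne_zero.2 h))

theorem good_divisors' {n : ℕ} {F : MvPolynomial (Fin n) ℂ} (hF : F ≠ 0) (h0 : eval 0 F = 0)
    {E S : Type} [Fintype E] [Fintype S] (ν N : E → ℕ) (hν : ∀ i, 2 ≤ ν i)
    (hA : ∀ i (H : MvPolynomial (Fin n) ℂ) (s : ℂ), eval 0 H ≠ 0 → Ev H F s →
      (ν i : ℂ) + N i * s = 0 → False)
    (q : S → MvPowerSeries (Fin n) ℂ) (m : S → ℕ) (hm : ∀ j, 0 < m j) (hq : ∀ j, Prime (q j))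
    (hr : ∀ j, ∃ r, (F : MvPowerSeries (Fin n) ℂ) = q j ^ m j * r ∧ ¬ q j ∣ r)
    (hne : ∀ i j, i ≠ j → ¬ q i ∣ q j)
    (χ : ℕ → Finset (E ⊕ S) → ℤ)
    (hval : (open Classical in ∑ I ∈ Finset.univ.filter (fun I : Finset (E ⊕ S) => I.Nonempty),
      (χ 1 I : ℂ) * ∏ i ∈ I, 1 / ((Sum.elim ν (fun _ => 1) i : ℕ) : ℂ)) = 1) :
    Good F 0 (fun k => strata (Sum.elim ν (fun _ => 1)) (Sum.elim N m) k (χ k)) := by
  classical
  haveI : IsDomain (MvPowerSeries (Fin n) ℂ) := NoZeroDivisors.to_isDomain _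
  have hd : ∀ (i : Fin n) (p : MvPolynomial (Fin n) ℂ),
      MvPowerSeries.pderiv ℂ i (cps n p) = cps n (pderiv i p) := by
    intro i p
    rw [cps_apply, cps_apply, MvPowerSeries.pderiv_coe]
  refine good_strata hF h0 (Sum.elim ν (fun _ => 1)) (Sum.elim N m) ?_ χ hval ?_ ?_
  · rintro (i | j)
    · exact le_trans (by norm_num) (hν i)
    · exact le_rfl
  · intro H s hH hE i hs
    rcases i with i | j
    · exact (hA i H s hH hE hs).elim
    · refine ⟨?_, rfl⟩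
      by_contra h1
      obtain ⟨r, hFr, hr'⟩ := hr j
      have hmc : (m j : ℂ) ≠ 0 := Nat.cast_ne_zero.2 (hm j).ne'
      have hs' : ((1 : ℕ) : ℂ) + m j * s = 0 := hs
      have h2 : s = -1 / (m j : ℂ) := by
        rw [eq_div_iff hmc]
        push_cast at hs'
        linear_combination hs'
      rw [h2] at hE
      have h3 : (Sum.elim N m (Sum.inr j) : ℕ) = m j := rfl
      rw [h3] at h1
      have h4 := hm j
      refine FC.pri (cps n) hd F H (q j) r (m j) (by rw [cps_apply]; exact hFr) (by omega) (hq j) hr'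
        ?_ hE
      rintro ⟨t, ht⟩
      apply hH
      rw [← cc_cps, ht, map_mul, cc_prime (hq j), zero_mul]
  · intro H hH hE i i' _ hi _ hi'
    have key : ∀ i : E ⊕ S, Sum.elim ν (fun _ => 1) i = 1 → ∃ j, i = Sum.inr j := by
      rintro (i | j) h1
      · have h2 : ν i = 1 := h1
        have := hν i
        omega
      · exact ⟨j, rfl⟩
    obtain ⟨j, rfl⟩ := key i hi
    obtain ⟨j', rfl⟩ := key i' hi'
    by_contra hjj
    obtain ⟨r, hFr, hr'⟩ := hr j
    have h5 : MvPowerSeries.constantCoeff r = 0 := by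
      obtain ⟨r', hFr', -⟩ := hr j'
      have h6 : q j' ∣ q j ^ m j * r := by
        rw [← hFr, hFr']
        exact (dvd_pow_self _ (hm j').ne').mul_right _
      rcases (hq j').dvd_or_dvd h6 with h7 | h7
      · exact absurd ((hq j').dvd_of_dvd_pow h7) (hne j' j fun h => hjj (by rw [h]))
      · obtain ⟨t, ht⟩ := h7
        rw [ht, map_mul, cc_prime (hq j'), zero_mul]
    refine FC.cro (cps n) hd F H (q j) r (m j) (by rw [cps_apply]; exact hFr) (hm j) (hq j) hr'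
      ?_ hE
    intro c' u' h
    apply hH
    rw [← cc_cps, h, map_add, map_mul, map_mul, cc_prime (hq j), h5, zero_mul, mul_zero, add_zero]

end Pool.Agent.L0h17.WT
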